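import Pool.Agent.V8H62.Nod.Basic

/-!
# The Prüfer angle of `cos (r x + α) / cos x`
-/

open Set Real Filter Topology

namespace Pool.Agent.V8H62.Nod

/-- the square of the ellipse radius -/
noncomputable def Q2 (r φ : ℝ) : ℝ := r ^ 2 * cos φ ^ 2 + sin φ ^ 2

/-- the ellipse radius -/
noncomputable def D (r φ : ℝ) : ℝ := Real.sqrt (Q2 r φ)

/-- the ellipse point -/
noncomputable def zf (r φ : ℝ) : ℂ := ⟨r * cos φ, sin φ⟩

/-- the angle increment -/
noncomputable def W (r φ : ℝ) : ℝ := r * φ - Complex.arg (zf r φ)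

theorem Q2_pos {r : ℝ} (hr : 1 < r) (φ : ℝ) : 0 < Q2 r φ := by
  unfold Q2
  have h1 := sin_sq_add_cos_sq φ
  have h2 : 0 ≤ (r ^ 2 - 1) * cos φ ^ 2 := by
    apply mul_nonneg _ (sq_nonneg _)
    nlinarith
  nlinarith

theorem one_le_Q2 {r : ℝ} (hr : 1 < r) (φ : ℝ) : 1 ≤ Q2 r φ := by
  unfold Q2
  have h1 := sin_sq_add_cos_sq φ
  have h2 : 0 ≤ (r ^ 2 - 1) * cos φ ^ 2 := by
    apply mul_nonneg _ (sq_nonneg _)
    nlinarith
  nlinarith

theorem Q2_le {r : ℝ} (hr : 1 < r) (φ : ℝ) : Q2 r φ ≤ r ^ 2 := by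
  unfold Q2
  have h1 := sin_sq_add_cos_sq φ
  have h2 : 0 ≤ (r ^ 2 - 1) * sin φ ^ 2 := by
    apply mul_nonneg _ (sq_nonneg _)
    nlinarith
  nlinarith

theorem D_pos {r : ℝ} (hr : 1 < r) (φ : ℝ) : 0 < D r φ := Real.sqrt_pos.2 (Q2_pos hr φ)

theorem D_sq {r : ℝ} (hr : 1 < r) (φ : ℝ) : D r φ ^ 2 = Q2 r φ :=
  Real.sq_sqrt (Q2_pos hr φ).le

theorem norm_zf (r φ : ℝ) : ‖zf r φ‖ = D r φ := by
  rw [Complex.norm_def, D, Q2, Complex.normSq_apply]
  congr 1
  simp only [zf]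
  ring

theorem zf_ne {r : ℝ} (hr : 1 < r) (φ : ℝ) : zf r φ ≠ 0 := by
  rw [← norm_pos_iff, norm_zf]
  exact D_pos hr φ

theorem cos_psi {r : ℝ} (hr : 1 < r) (φ : ℝ) :
    cos (Complex.arg (zf r φ)) = r * cos φ / D r φ := by
  rw [Complex.cos_arg (zf_ne hr φ), norm_zf]; rfl

theorem sin_psi (r φ : ℝ) :
    sin (Complex.arg (zf r φ)) = sin φ / D r φ := by
  rw [Complex.sin_arg, norm_zf]; rfl

theorem cos_shift {r : ℝ} (hr : 1 < r) (φ α : ℝ) :
    cos (r * φ + α) * D r φ = cos (W r φ + α) * (r * cos φ) - sin (W r φ + α) * sin φ := by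
  have h : r * φ + α = (W r φ + α) + Complex.arg (zf r φ) := by unfold W; ring
  rw [h, cos_add, cos_psi hr, sin_psi]
  have := (D_pos hr φ).ne'
  field_simp

theorem sin_shift {r : ℝ} (hr : 1 < r) (φ α : ℝ) :
    sin (r * φ + α) * D r φ = sin (W r φ + α) * (r * cos φ) + cos (W r φ + α) * sin φ := by
  have h : r * φ + α = (W r φ + α) + Complex.arg (zf r φ) := by unfold W; ring
  rw [h, sin_add, cos_psi hr, sin_psi]
  have := (D_pos hr φ).ne'
  field_simp

theorem sin_W {r : ℝ} (hr : 1 < r) (φ α : ℝ) :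
    sin (W r φ + α) * D r φ = r * cos φ * sin (r * φ + α) - sin φ * cos (r * φ + α) := by
  have h : W r φ + α = (r * φ + α) - Complex.arg (zf r φ) := by unfold W; ring
  rw [h, sin_sub, cos_psi hr, sin_psi]
  have := (D_pos hr φ).ne'
  field_simp

theorem W_zero {r : ℝ} (hr : 1 < r) : W r 0 = 0 := by
  have h : zf r 0 = ((r : ℝ) : ℂ) := by
    apply Complex.ext <;> simp [zf]
  unfold W
  rw [h, Complex.arg_ofReal_of_nonneg (by linarith)]
  simp

theorem W_pi_div_two (r : ℝ) : W r (π / 2) = r * (π / 2) - π / 2 := by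
  have h : zf r (π / 2) = Complex.I := by
    apply Complex.ext <;> simp [zf]
  unfold W
  rw [h, Complex.arg_I]

theorem zf_slit {r : ℝ} (hr : 1 < r) {φ : ℝ} (hφ : φ ∈ Icc (-(π / 2)) (π / 2)) :
    zf r φ ∈ Complex.slitPlane := by
  rw [Complex.mem_slitPlane_iff]
  have hc : 0 ≤ cos φ := cos_nonneg_of_mem_Icc hφ
  rcases hc.lt_or_eq with h | h
  · left
    exact mul_pos (by linarith) h
  · right
    intro h0
    have := sin_sq_add_cos_sq φ
    have h0' : sin φ = 0 := h0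
    rw [h0', ← h] at this
    norm_num at this

theorem W_neg {r : ℝ} (hr : 1 < r) {φ : ℝ} (hφ : φ ∈ Icc (-(π / 2)) (π / 2)) :
    W r (-φ) = - W r φ := by
  have h : zf r (-φ) = (starRingEnd ℂ) (zf r φ) := by
    apply Complex.ext <;> simp [zf]
  unfold W
  rw [h, Complex.arg_conj, if_neg (Complex.mem_slitPlane_iff_arg.1 (zf_slit hr hφ)).1]
  ring

theorem hasDerivAt_W {r : ℝ} (hr : 1 < r) {φ : ℝ} (hφ : φ ∈ Icc (-(π / 2)) (π / 2)) :
    HasDerivAt (W r) (r * (r ^ 2 - 1) * cos φ ^ 2 / Q2 r φ) φ := by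
  have hz : HasDerivAt (zf r) (⟨-(r * sin φ), cos φ⟩ : ℂ) φ := by
    have e : zf r = fun φ => ((r * cos φ : ℝ) : ℂ) + ((sin φ : ℝ) : ℂ) * Complex.I := by
      funext φ
      apply Complex.ext <;> simp [zf, -Complex.ofReal_cos, -Complex.ofReal_sin]
    rw [e]
    have h1 : HasDerivAt (fun φ : ℝ => ((r * cos φ : ℝ) : ℂ)) ((r * (-sin φ) : ℝ) : ℂ) φ :=
      ((hasDerivAt_cos φ).const_mul r).ofReal_comp
    have h2 : HasDerivAt (fun φ : ℝ => ((sin φ : ℝ) : ℂ)) ((cos φ : ℝ) : ℂ) φ :=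
      (hasDerivAt_sin φ).ofReal_comp
    refine (h1.add (h2.mul_const Complex.I)).congr_deriv ?_
    apply Complex.ext <;> simp [-Complex.ofReal_cos, -Complex.ofReal_sin]
  have hl := hz.clog_real (zf_slit hr hφ)
  have him : HasDerivAt (fun t => Complex.arg (zf r t))
      ((⟨-(r * sin φ), cos φ⟩ / zf r φ : ℂ)).im φ := by
    have := Complex.imCLM.hasFDerivAt.comp_hasDerivAt φ hl
    simpa [Function.comp_def, Complex.log_im] using this
  have hid : HasDerivAt (fun t : ℝ => r * t) r φ := by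
    simpa using (hasDerivAt_id φ).const_mul r
  refine (hid.sub him).congr_deriv ?_
  have hq : Complex.normSq (zf r φ) = Q2 r φ := by
    rw [Complex.normSq_apply]; simp only [zf, Q2]; ring
  rw [Complex.div_im, hq]
  simp only [zf]
  have h0 := (Q2_pos hr φ).ne'
  field_simp
  unfold Q2
  have h1 := sin_sq_add_cos_sq φ
  have h2 : sin φ ^ 2 = 1 - cos φ ^ 2 := by linarith
  rw [h2]; ring

theorem continuousOn_W {r : ℝ} (hr : 1 < r) : ContinuousOn (W r) (Icc (-(π / 2)) (π / 2)) :=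
  fun _ hφ => (hasDerivAt_W hr hφ).continuousAt.continuousWithinAt

theorem strictMonoOn_W {r : ℝ} (hr : 1 < r) : StrictMonoOn (W r) (Icc (-(π / 2)) (π / 2)) := by
  apply strictMonoOn_of_deriv_pos (convex_Icc _ _) (continuousOn_W hr)
  intro x hx
  rw [interior_Icc] at hx
  rw [(hasDerivAt_W hr (Ioo_subset_Icc_self hx)).deriv]
  have := cos_pos_of_mem_Ioo hx
  have h2 := Q2_pos hr x
  have h3 : 0 < r ^ 2 - 1 := by nlinarith
  have : 0 < r := by linarith
  positivity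

/-- the logarithm of the amplitude (up to a constant) -/
noncomputable def L (r φ : ℝ) : ℝ := -(1 / 2) * Real.log (Q2 r φ)

theorem hasDerivAt_L {r : ℝ} (hr : 1 < r) (φ : ℝ) :
    HasDerivAt (L r) ((r ^ 2 - 1) * cos φ * sin φ / Q2 r φ) φ := by
  have h1 : HasDerivAt (Q2 r) (r ^ 2 * (2 * cos φ * (-sin φ)) + 2 * sin φ * cos φ) φ := by
    have hc : HasDerivAt (fun x => cos x ^ 2) (2 * cos φ * (-sin φ)) φ := by
      simpa using (hasDerivAt_cos φ).fun_pow 2
    have hs : HasDerivAt (fun x => sin x ^ 2) (2 * sin φ * (cos φ)) φ := by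
      simpa using (hasDerivAt_sin φ).fun_pow 2
    exact (hc.const_mul (r ^ 2)).add hs
  refine ((h1.log (Q2_pos hr φ).ne').const_mul (-(1 / 2) : ℝ)).congr_deriv ?_
  have h0 := (Q2_pos hr φ).ne'
  field_simp
  ring

/-- Cauchy's mean value theorem for `L` against `W`. -/
theorem L_W_slope {r : ℝ} (hr : 1 < r) {a b : ℝ} (ha : 0 ≤ a) (hab : a < b) (hb : b ≤ π / 2) :
    ∃ c ∈ Ioo a b, (W r b - W r a) * sin c = r * cos c * (L r b - L r a) := by
  have hpi := pi_pos
  have hcl : Continuous (L r) := continuous_iff_continuousAt.2 fun x => (hasDerivAt_L hr x).continuousAt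
  obtain ⟨c, hc, h⟩ := exists_ratio_hasDerivAt_eq_ratio_slope (L r)
    (fun φ => (r ^ 2 - 1) * cos φ * sin φ / Q2 r φ) hab hcl.continuousOn
    (fun x _ => hasDerivAt_L hr x) (W r) (fun φ => r * (r ^ 2 - 1) * cos φ ^ 2 / Q2 r φ)
    ((continuousOn_W hr).mono (Icc_subset_Icc (by linarith) hb))
    (fun x hx => hasDerivAt_W hr ⟨by linarith [hx.1], by linarith [hx.2]⟩)
  refine ⟨c, hc, ?_⟩
  have hcc : 0 < cos c := cos_pos_of_mem_Ioo ⟨by linarith [hc.1], by linarith [hc.2]⟩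
  have hq := Q2_pos hr c
  have hr2 : 0 < r ^ 2 - 1 := by nlinarith
  have h' : ((r ^ 2 - 1) * cos c / Q2 r c) * ((W r b - W r a) * sin c) =
      ((r ^ 2 - 1) * cos c / Q2 r c) * (r * cos c * (L r b - L r a)) := by
    have e1 : ((r ^ 2 - 1) * cos c / Q2 r c) * ((W r b - W r a) * sin c) =
      (W r b - W r a) * ((r ^ 2 - 1) * cos c * sin c / Q2 r c) := by ring
    rw [e1, h]; ring
  exact mul_left_cancel₀ (by positivity) h'

theorem conv0 {r : ℝ} (hr : 1 < r) {a b c d : ℝ} (ha : 0 ≤ a) (hab : a < b) (hbc : b ≤ c)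
    (hcd : c < d) (hd : d ≤ π / 2) (hW : W r b - W r a = W r d - W r c) :
    L r b - L r a < L r d - L r c := by
  have hpi := pi_pos
  obtain ⟨s, hs, h1⟩ := L_W_slope hr ha hab (by linarith)
  obtain ⟨t, ht, h2⟩ := L_W_slope hr (by linarith) hcd hd
  have hcs : 0 < cos s := cos_pos_of_mem_Ioo ⟨by linarith [hs.1], by linarith [hs.2]⟩
  have hct : 0 < cos t := cos_pos_of_mem_Ioo ⟨by linarith [ht.1], by linarith [ht.2]⟩
  have hst : 0 < sin (t - s) := sin_pos_of_pos_of_lt_pi (by linarith [hs.2, ht.1])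
    (by linarith [hs.1, ht.2])
  rw [sin_sub] at hst
  have hWp : 0 < W r d - W r c := by
    have := strictMonoOn_W hr (show c ∈ Icc (-(π / 2)) (π / 2) from ⟨by linarith, by linarith⟩)
      (show d ∈ Icc (-(π / 2)) (π / 2) from ⟨by linarith, by linarith⟩) hcd
    linarith
  rw [hW] at h1
  set w := W r d - W r c
  have hr0 : 0 < r := by linarith
  by_contra hle
  push Not at hle
  have h3 : (r * cos s * cos t) * (L r d - L r c) ≤ (r * cos s * cos t) * (L r b - L r a) :=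
    mul_le_mul_of_nonneg_left hle (by positivity)
  have h4 : w * sin t * cos s = (r * cos s * cos t) * (L r d - L r c) := by
    rw [h2]; ring
  have h5 : w * sin s * cos t = (r * cos s * cos t) * (L r b - L r a) := by
    rw [h1]; ring
  nlinarith

theorem conv1 {r : ℝ} (hr : 1 < r) {a b c d : ℝ} (ha : 0 ≤ a) (hab : a < b) (hac : a < c)
    (hcd : c < d) (hd : d ≤ π / 2) (hb : b ≤ π / 2) (hW : W r b - W r a = W r d - W r c) :
    L r b - L r a < L r d - L r c := by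
  have hpi := pi_pos
  rcases le_or_gt b c with h | h
  · exact conv0 hr ha hab h hcd hd hW
  · have hbd : b < d := by
      by_contra hdb
      push Not at hdb
      have h1 := (strictMonoOn_W hr).monotoneOn
        (show d ∈ Icc (-(π / 2)) (π / 2) from ⟨by linarith, by linarith⟩)
        (show b ∈ Icc (-(π / 2)) (π / 2) from ⟨by linarith, by linarith⟩) hdb
      have h2 := strictMonoOn_W hr
        (show a ∈ Icc (-(π / 2)) (π / 2) from ⟨by linarith, by linarith⟩)
        (show c ∈ Icc (-(π / 2)) (π / 2) from ⟨by linarith, by linarith⟩) hac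
      linarith
    have := conv0 hr ha hac h.le hbd hd (by linarith)
    linarith

end Pool.Agent.V8H62.Nod
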