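import Mathlib

/-!
# Planar analysis for two-mode eigenfunctions of the square

`U r τ α β (x, y) = cos (r x + α) cos y + τ cos x cos (r y + β)`.
-/

open Set Real Filter Topology

namespace Pool.Agent.V8H62.Nod

theorem joined_horiz {S : Set (ℝ × ℝ)} {x₁ x₂ y : ℝ} (h : ∀ x ∈ uIcc x₁ x₂, (x, y) ∈ S) :
    JoinedIn S (x₁, y) (x₂, y) := by
  refine JoinedIn.ofLine (f := fun t : ℝ => ((1 - t) * x₁ + t * x₂, y)) (by fun_prop)
    (by simp) (by simp) ?_
  rintro _ ⟨t, ht, rfl⟩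
  apply h
  have := convex_uIcc x₁ x₂ (left_mem_uIcc) (right_mem_uIcc) (sub_nonneg.2 ht.2) ht.1 (by ring)
  simpa using this

theorem joined_vert {S : Set (ℝ × ℝ)} {x y₁ y₂ : ℝ} (h : ∀ y ∈ uIcc y₁ y₂, (x, y) ∈ S) :
    JoinedIn S (x, y₁) (x, y₂) := by
  refine JoinedIn.ofLine (f := fun t : ℝ => (x, (1 - t) * y₁ + t * y₂)) (by fun_prop)
    (by simp) (by simp) ?_
  rintro _ ⟨t, ht, rfl⟩
  apply h
  have := convex_uIcc y₁ y₂ (left_mem_uIcc) (right_mem_uIcc) (sub_nonneg.2 ht.2) ht.1 (by ring)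
  simpa using this

theorem pos_of_zero_deriv_neg {f f' : ℝ → ℝ} {a b : ℝ} (hf : ∀ x, HasDerivAt f (f' x) x)
    (hz : ∀ x ∈ Ico a b, f x = 0 → f' x < 0) (hb : 0 < f b) : ∀ x ∈ Icc a b, 0 < f x := by
  intro x hx
  by_contra hneg
  push Not at hneg
  have hc : Continuous f := continuous_iff_continuousAt.2 fun x => (hf x).continuousAt
  have := image_le_of_deriv_right_lt_deriv_boundary' (f := f) (f' := f') (a := x) (b := b)
    (B := fun _ => 0) (B' := fun _ => 0) hc.continuousOn (fun x _ => (hf x).hasDerivWithinAt)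
    hneg continuousOn_const (fun x _ => (hasDerivWithinAt_const ..))
    (fun z hz' h0 => hz z ⟨hx.1.trans hz'.1, hz'.2⟩ h0) (right_mem_Icc.2 hx.2)
  exact absurd hb (not_lt.2 this)

/-- the local two-mode function -/
noncomputable def U (r τ α β : ℝ) (z : ℝ × ℝ) : ℝ :=
  cos (r * z.1 + α) * cos z.2 + τ * cos z.1 * cos (r * z.2 + β)

theorem T_lemma {r τ α β x y : ℝ} (hr : 1 < r) (hτ : 0 < τ)
    (hx : x ∈ Ioo (-(π / 2)) (π / 2)) (hA : τ * r * cos x < cos (r * x + α))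
    (hy : y ∈ Icc 0 (π / 2)) (hU : 0 < U r τ α β (x, y)) :
    ∀ y' ∈ Icc 0 y, 0 < U r τ α β (x, y') := by
  have hX : 0 < cos x := cos_pos_of_mem_Ioo hx
  set P := cos (r * x + α) with hP
  set X := cos x with hXd
  have hr0 : 0 < r := by linarith
  have hk : 0 < τ * r * X := by positivity
  have hPpos : 0 < P := hk.trans hA
  have hder : ∀ y, HasDerivAt (fun y => U r τ α β (x, y))
      (-(P * sin y) - τ * r * X * sin (r * y + β)) y := by
    intro y
    have h1 : HasDerivAt (fun y : ℝ => r * y + β) r y := by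
      simpa using ((hasDerivAt_id y).const_mul r).add_const β
    have h2 : HasDerivAt (fun y : ℝ => P * cos y + τ * X * cos (r * y + β))
        (P * (-sin y) + τ * X * (-sin (r * y + β) * r)) y :=
      ((hasDerivAt_cos y).const_mul P).add ((h1.cos).const_mul (τ * X))
    exact h2.congr_deriv (by ring)
  refine pos_of_zero_deriv_neg hder ?_ hU
  intro z hz h0
  have hz2 : z < π / 2 := hz.2.trans_le hy.2
  have h0' : P * cos z = - (τ * X * cos (r * z + β)) := by
    have : P * cos z + τ * X * cos (r * z + β) = 0 := h0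
    linarith
  by_contra hge
  push Not at hge
  have hs : 0 ≤ sin z := sin_nonneg_of_nonneg_of_le_pi hz.1 (by linarith [pi_pos])
  have hle : P * sin z ≤ -(τ * r * X * sin (r * z + β)) := by linarith
  have hsq : (P * sin z) ^ 2 ≤ (τ * r * X * sin (r * z + β)) ^ 2 := by
    have h0s : 0 ≤ P * sin z := by positivity
    nlinarith
  have hsc := sin_sq_add_cos_sq (r * z + β)
  have hsc2 := sin_sq_add_cos_sq z
  have e1 : (P * cos z) ^ 2 = (τ * X) ^ 2 * cos (r * z + β) ^ 2 := by rw [h0']; ring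
  have e2 : (P * sin z) ^ 2 + r ^ 2 * (P * cos z) ^ 2 ≤ (τ * r * X) ^ 2 := by
    calc (P * sin z) ^ 2 + r ^ 2 * (P * cos z) ^ 2
        ≤ (τ * r * X * sin (r * z + β)) ^ 2 + r ^ 2 * ((τ * X) ^ 2 * cos (r * z + β) ^ 2) := by
          rw [e1]; linarith
      _ = (τ * r * X) ^ 2 * (sin (r * z + β) ^ 2 + cos (r * z + β) ^ 2) := by ring
      _ = (τ * r * X) ^ 2 := by rw [hsc]; ring
  have e3 : (τ * r * X) ^ 2 < P ^ 2 := by
    apply sq_lt_sq' <;> linarith
  have e4 : P ^ 2 ≤ (P * sin z) ^ 2 + r ^ 2 * (P * cos z) ^ 2 := by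
    have : P ^ 2 * 1 ≤ P ^ 2 * (sin z ^ 2 + r ^ 2 * cos z ^ 2) := by
      apply mul_le_mul_of_nonneg_left _ (sq_nonneg _)
      have hr2 : 1 ≤ r ^ 2 := by nlinarith
      nlinarith [sq_nonneg (cos z)]
    calc P ^ 2 = P ^ 2 * 1 := by ring
      _ ≤ _ := this
      _ = _ := by ring
  linarith

end Pool.Agent.V8H62.Nod
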