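import Pool.Agent.V8H62.Nod.Angle

/-!
# Escaping from a cell
-/

open Set Real Filter Topology

namespace Pool.Agent.V8H62.Nod

/-- the quotient function -/
noncomputable def Af (r α x : ℝ) : ℝ := cos (r * x + α) / cos x

theorem U_eq {r τ α β x y : ℝ} (hx : x ∈ Ioo (-(π / 2)) (π / 2)) (hy : y ∈ Ioo (-(π / 2)) (π / 2)) :
    U r τ α β (x, y) = cos x * cos y * (Af r α x + τ * Af r β y) := by
  have h1 := (cos_pos_of_mem_Ioo hx).ne'
  have h2 := (cos_pos_of_mem_Ioo hy).ne'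
  unfold U Af
  field_simp

theorem U_pos_iff {r τ α β x y : ℝ} (hx : x ∈ Ioo (-(π / 2)) (π / 2))
    (hy : y ∈ Ioo (-(π / 2)) (π / 2)) :
    0 < U r τ α β (x, y) ↔ 0 < Af r α x + τ * Af r β y := by
  rw [U_eq hx hy]
  have h1 := cos_pos_of_mem_Ioo hx
  have h2 := cos_pos_of_mem_Ioo hy
  exact mul_pos_iff_of_pos_left (mul_pos h1 h2)

theorem Af_add_pi (r α x : ℝ) : Af r (α + π) x = - Af r α x := by
  unfold Af
  rw [← add_assoc, cos_add_pi]; ring

theorem hasDerivAt_Af {r : ℝ} (hr : 1 < r) (α : ℝ) {x : ℝ} (hx : x ∈ Ioo (-(π / 2)) (π / 2)) :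
    HasDerivAt (Af r α) (-(sin (W r x + α) * D r x) / cos x ^ 2) x := by
  have h0 := (cos_pos_of_mem_Ioo hx).ne'
  have h1 : HasDerivAt (fun y : ℝ => r * y + α) r x := by
    simpa using ((hasDerivAt_id x).const_mul r).add_const α
  have h2 := (h1.cos).div (hasDerivAt_cos x) h0
  refine h2.congr_deriv ?_
  rw [sin_W hr]
  congr 1
  ring

theorem sin_nonpos_range {n : ℤ} {w : ℝ} (h1 : (2 * n - 1) * π ≤ w) (h2 : w ≤ 2 * n * π) :
    sin w ≤ 0 := by
  have h := Real.sin_sub_int_mul_two_pi w n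
  rw [← h]
  apply Real.sin_nonpos_of_nonpos_of_neg_pi_le
  · linarith
  · linarith

theorem mono_A {r : ℝ} (hr : 1 < r) {α a b : ℝ} {n : ℤ} (ha : -(π / 2) < a) (hab : a ≤ b)
    (hb : b < π / 2) (h1 : (2 * n - 1) * π ≤ W r a + α) (h2 : W r b + α ≤ 2 * n * π) :
    Af r α a ≤ Af r α b := by
  have hder : ∀ x ∈ Icc a b, HasDerivAt (Af r α) (-(sin (W r x + α) * D r x) / cos x ^ 2) x :=
    fun x hx => hasDerivAt_Af hr α ⟨by linarith [hx.1], by linarith [hx.2]⟩
  have hm : MonotoneOn (Af r α) (Icc a b) := by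
    apply monotoneOn_of_deriv_nonneg (convex_Icc _ _)
    · exact fun x hx => (hder x hx).continuousAt.continuousWithinAt
    · exact fun x hx => (hder x (interior_subset hx)).differentiableAt.differentiableWithinAt
    · intro x hx
      have hx' := interior_subset hx
      rw [(hder x hx').deriv]
      have hW := (strictMonoOn_W hr).monotoneOn
      have w1 : W r a ≤ W r x := hW ⟨by linarith, by linarith⟩
        ⟨by linarith [hx'.1], by linarith [hx'.2]⟩ hx'.1
      have w2 : W r x ≤ W r b := hW ⟨by linarith [hx'.1], by linarith [hx'.2]⟩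
        ⟨by linarith, by linarith⟩ hx'.2
      have hs : sin (W r x + α) ≤ 0 := sin_nonpos_range (n := n) (by linarith) (by linarith)
      have hD := D_pos hr x
      apply div_nonneg _ (sq_nonneg _)
      nlinarith
  exact hm (left_mem_Icc.2 hab) (right_mem_Icc.2 hab) hab

theorem anti_A {r : ℝ} (hr : 1 < r) {α a b : ℝ} {n : ℤ} (ha : -(π / 2) < a) (hab : a ≤ b)
    (hb : b < π / 2) (h1 : 2 * n * π ≤ W r a + α) (h2 : W r b + α ≤ (2 * n + 1) * π) :
    Af r α b ≤ Af r α a := by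
  have := mono_A (n := n + 1) hr (α := α + π) ha hab hb (by push_cast; linarith)
    (by push_cast; linarith)
  rw [Af_add_pi, Af_add_pi] at this
  linarith

theorem sin_two_int (n : ℤ) : sin (2 * n * π) = 0 := by
  rw [show (2 * (n : ℝ) * π) = ((2 * n : ℤ) : ℝ) * π by push_cast; ring]
  exact sin_int_mul_pi _

theorem cos_two_int (n : ℤ) : cos (2 * n * π) = 1 := by
  rw [show (2 * (n : ℝ) * π) = (n : ℝ) * (2 * π) by ring]
  exact cos_int_mul_two_pi _

/-- value at a top arc -/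
theorem A_top {r : ℝ} (hr : 1 < r) {α x : ℝ} {n : ℤ} (hx : x ∈ Ioo (-(π / 2)) (π / 2))
    (h : W r x + α = 2 * n * π) : Af r α x = r / D r x := by
  have h1 := cos_shift hr x α
  rw [h, sin_two_int, cos_two_int] at h1
  have h0 := (cos_pos_of_mem_Ioo hx).ne'
  have hD := (D_pos hr x).ne'
  unfold Af
  rw [div_eq_div_iff h0 hD]
  linarith

/-- value at a bottom arc -/
theorem A_bot {r : ℝ} (hr : 1 < r) {α x : ℝ} {n : ℤ} (hx : x ∈ Ioo (-(π / 2)) (π / 2))
    (h : W r x + α = (2 * n + 1) * π) : Af r α x = -(r / D r x) := by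
  have h1 := A_top (n := n + 1) hr (α := α + π) hx (by push_cast; linarith)
  rw [Af_add_pi] at h1
  linarith

theorem cos_end (r α : ℝ) : cos (r * (π / 2) + α) = - sin (W r (π / 2) + α) := by
  rw [W_pi_div_two, show r * (π / 2) + α = (r * (π / 2) - π / 2 + α) + π / 2 by ring,
    cos_add_pi_div_two]

theorem sin_end (r α : ℝ) : sin (r * (π / 2) + α) = cos (W r (π / 2) + α) := by
  rw [W_pi_div_two, show r * (π / 2) + α = (r * (π / 2) - π / 2 + α) + π / 2 by ring,
    sin_add_pi_div_two]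

theorem near {r κ α x₀ : ℝ} (hκ : κ < r) (hc : cos (r * (π / 2) + α) = 0)
    (hs : sin (r * (π / 2) + α) = 1) (hx₀ : x₀ < π / 2) :
    ∃ x ∈ Ioo x₀ (π / 2), κ * cos x < cos (r * x + α) := by
  have h1 : HasDerivAt (fun y : ℝ => r * y + α) r (π / 2) := by
    simpa using ((hasDerivAt_id (π / 2)).const_mul r).add_const α
  have h2 : HasDerivAt (fun x : ℝ => cos (r * x + α) - κ * cos x) (κ - r) (π / 2) := by
    refine ((h1.cos).sub ((hasDerivAt_cos (π / 2)).const_mul κ)).congr_deriv ?_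
    rw [hs]; simp; ring
  rw [hasDerivAt_iff_tendsto_slope] at h2
  have h3 : ∀ᶠ x in 𝓝[<] (π / 2), slope (fun x : ℝ => cos (r * x + α) - κ * cos x) (π / 2) x < 0 :=
    (h2.eventually_lt_const (by linarith)).filter_mono
      (nhdsWithin_mono _ (fun x hx => ne_of_lt hx))
  have h4 : ∀ᶠ x in 𝓝[<] (π / 2), x ∈ Ioo x₀ (π / 2) := Ioo_mem_nhdsLT hx₀
  obtain ⟨x, hx3, hx4⟩ := (h3.and h4).exists
  refine ⟨x, hx4, ?_⟩
  rw [slope_def_field] at hx3
  simp only [hc, cos_pi_div_two, mul_zero, sub_zero] at hx3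
  have hneg : x - π / 2 < 0 := by linarith [hx4.2]
  by_contra hle
  push Not at hle
  have : 0 ≤ (cos (r * x + α) - κ * cos x) / (x - π / 2) :=
    div_nonneg_of_nonpos (by linarith) hneg.le
  linarith

/-- The point can be joined to a horizontal lattice line inside `{U > 0}`. -/
def Good (r τ α β : ℝ) (z : ℝ × ℝ) : Prop :=
  ∃ (x' : ℝ) (k : ℤ), JoinedIn {w : ℝ × ℝ | 0 < U r τ α β w} z (x', k * π)

theorem Good.of_joined {r τ α β : ℝ} {z w : ℝ × ℝ} (h : Good r τ α β w)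
    (hj : JoinedIn {w : ℝ × ℝ | 0 < U r τ α β w} z w) : Good r τ α β z := by
  obtain ⟨x', k, h⟩ := h
  exact ⟨x', k, hj.trans h⟩

theorem good_of_vert_zero {r τ α β x y : ℝ} (hy : 0 ≤ y)
    (h : ∀ y' ∈ Icc 0 y, 0 < U r τ α β (x, y')) : Good r τ α β (x, y) := by
  refine ⟨x, 0, ?_⟩
  rw [show ((0 : ℤ) : ℝ) * π = 0 by simp]
  apply joined_vert
  intro y' hy'
  rw [uIcc_of_ge hy] at hy'
  exact h y' hy'

theorem good_side {r τ α β x y : ℝ} (hx : cos x = 0) (hy : y ∈ Icc 0 (π / 2))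
    (hU : 0 < U r τ α β (x, y)) : Good r τ α β (x, y) := by
  apply good_of_vert_zero hy.1
  intro y' hy'
  unfold U at hU ⊢
  simp only [hx, mul_zero, zero_mul, add_zero] at hU ⊢
  have h1 : 0 ≤ cos y := cos_nonneg_of_mem_Icc ⟨by linarith [pi_pos, hy.1], hy.2⟩
  have h2 : 0 < cos (r * x + α) := pos_of_mul_pos_left hU h1
  have hcy : 0 < cos y := (mul_pos_iff_of_pos_left h2).1 hU
  have hy2 : y < π / 2 := by
    rcases hy.2.lt_or_eq with h | h
    · exact h
    · rw [h] at hcy; simp at hcy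
  apply mul_pos h2
  exact cos_pos_of_mem_Ioo ⟨by linarith [pi_pos, hy'.1], by linarith [hy'.2]⟩

theorem good_T {r τ α β x y : ℝ} (hr : 1 < r) (hτ : 0 < τ)
    (hx : x ∈ Ioo (-(π / 2)) (π / 2)) (hA : τ * r * cos x < cos (r * x + α))
    (hy : y ∈ Icc 0 (π / 2)) (hU : 0 < U r τ α β (x, y)) : Good r τ α β (x, y) :=
  good_of_vert_zero hy.1 (T_lemma hr hτ hx hA hy hU)

theorem U_reflect_x (r τ α β x y : ℝ) : U r τ (-α) β (-x, y) = U r τ α β (x, y) := by
  unfold U
  simp only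
  rw [show r * -x + -α = -(r * x + α) by ring, cos_neg, cos_neg]

theorem U_reflect_y (r τ α β x y : ℝ) : U r τ α (-β) (x, -y) = U r τ α β (x, y) := by
  unfold U
  simp only
  rw [show r * -y + -β = -(r * y + β) by ring, cos_neg, cos_neg]

theorem U_reflect_top (r τ α β x y : ℝ) :
    U r τ (α + π) (-(r * π) - β) (x, π - y) = U r τ α β (x, y) := by
  unfold U
  simp only
  rw [show r * (π - y) + (-(r * π) - β) = -(r * y + β) by ring, cos_neg, cos_pi_sub,
    ← add_assoc, cos_add_pi]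
  ring

theorem good_reflect_x {r τ α β x y : ℝ} (h : Good r τ (-α) β (-x, y)) :
    Good r τ α β (x, y) := by
  obtain ⟨x', k, h⟩ := h
  refine ⟨-x', k, ?_⟩
  have := h.map (f := fun z : ℝ × ℝ => (-z.1, z.2)) (by fun_prop)
  simp only [neg_neg] at this
  refine this.mono ?_
  rintro _ ⟨⟨a, b⟩, hz, rfl⟩
  have := U_reflect_x r τ α β (-a) b
  simp only [mem_ofPred_eq, neg_neg] at this hz ⊢
  rw [← this]; exact hz

theorem good_reflect_y {r τ α β x y : ℝ} (h : Good r τ α (-β) (x, -y)) :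
    Good r τ α β (x, y) := by
  obtain ⟨x', k, h⟩ := h
  refine ⟨x', -k, ?_⟩
  have := h.map (f := fun z : ℝ × ℝ => (z.1, -z.2)) (by fun_prop)
  simp only [neg_neg] at this
  push_cast
  rw [neg_mul]
  refine this.mono ?_
  rintro _ ⟨⟨a, b⟩, hz, rfl⟩
  have := U_reflect_y r τ α β a (-b)
  simp only [mem_ofPred_eq, neg_neg] at this hz ⊢
  rw [← this]; exact hz

theorem good_reflect_top {r τ α β x y : ℝ} (h : Good r τ (α + π) (-(r * π) - β) (x, π - y)) :
    Good r τ α β (x, y) := by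
  obtain ⟨x', k, h⟩ := h
  refine ⟨x', 1 - k, ?_⟩
  have := h.map (f := fun z : ℝ × ℝ => (z.1, π - z.2)) (by fun_prop)
  simp only [sub_sub_cancel] at this
  push_cast
  rw [sub_mul, one_mul]
  refine this.mono ?_
  rintro _ ⟨⟨a, b⟩, hz, rfl⟩
  have := U_reflect_top r τ α β a (π - b)
  simp only [mem_ofPred_eq, sub_sub_cancel] at this hz ⊢
  rw [← this]; exact hz

end Pool.Agent.V8H62.Nod
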