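import Pool.Agent.V8H62.Nod.Cell

/-!
# The core escape argument
-/

open Set Real Filter Topology

namespace Pool.Agent.V8H62.Nod

theorem exists_int_range (w : ℝ) : ∃ k : ℤ, (2 * k - 1) * π ≤ w ∧ w < (2 * k + 1) * π := by
  have hpi := pi_pos
  refine ⟨⌊w / (2 * π) + 1 / 2⌋, ?_, ?_⟩
  · have h := Int.floor_le (w / (2 * π) + 1 / 2)
    have h2 : (⌊w / (2 * π) + 1 / 2⌋ : ℝ) * (2 * π) ≤ (w / (2 * π) + 1 / 2) * (2 * π) :=
      mul_le_mul_of_nonneg_right h (by positivity)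
    have h3 : (w / (2 * π) + 1 / 2) * (2 * π) = w + π := by field_simp
    linarith
  · have h := Int.lt_floor_add_one (w / (2 * π) + 1 / 2)
    have h2 : (w / (2 * π) + 1 / 2) * (2 * π) < ((⌊w / (2 * π) + 1 / 2⌋ : ℝ) + 1) * (2 * π) :=
      mul_lt_mul_of_pos_right h (by positivity)
    have h3 : (w / (2 * π) + 1 / 2) * (2 * π) = w + π := by field_simp
    linarith

theorem sin_neg_range {n : ℤ} {w : ℝ} (h1 : (2 * n - 1) * π < w) (h2 : w < 2 * n * π) :
    sin w < 0 := by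
  have h := Real.sin_sub_int_mul_two_pi w n
  rw [← h]
  apply Real.sin_neg_of_neg_of_neg_pi_lt
  · linarith
  · linarith

/-- moving right uphill -/
theorem ascend {r τ α β x y : ℝ} {n : ℤ} (hr : 1 < r) (hτ : 0 < τ) (hτ1 : τ < 1)
    (hx : x ∈ Ioo (-(π / 2)) (π / 2)) (hy : y ∈ Ioo 0 (π / 2))
    (hU : 0 < U r τ α β (x, y)) (h1 : (2 * n - 1) * π ≤ W r x + α)
    (h2 : W r x + α ≤ 2 * n * π) :
    Good r τ α β (x, y) ∨ ∃ x₁ ∈ Ico x (π / 2), W r x₁ + α = 2 * n * π ∧
      JoinedIn {w : ℝ × ℝ | 0 < U r τ α β w} (x, y) (x₁, y) := by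
  have hpi := pi_pos
  have hr0 : 0 < r := by linarith
  have hy' : y ∈ Ioo (-(π / 2)) (π / 2) := ⟨by linarith [hy.1], hy.2⟩
  have hcy : 0 < cos y := cos_pos_of_mem_Ioo hy'
  have hmono : ∀ x' ∈ Ico x (π / 2), W r x' + α ≤ 2 * n * π → 0 < U r τ α β (x', y) := by
    intro x' hx' hW
    have hx'' : x' ∈ Ioo (-(π / 2)) (π / 2) := ⟨by linarith [hx.1, hx'.1], hx'.2⟩
    rw [U_pos_iff hx'' hy']
    rw [U_pos_iff hx hy'] at hU
    have := mono_A hr hx.1 hx'.1 hx'.2 h1 hW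
    linarith
  have hWm := (strictMonoOn_W hr)
  rcases lt_trichotomy (W r (π / 2) + α) (2 * n * π) with hlt | heq | hgt
  · -- reach the side
    left
    have hW1 : W r x < W r (π / 2) := hWm ⟨hx.1.le, hx.2.le⟩ ⟨by linarith, le_rfl⟩ hx.2
    have hs : sin (W r (π / 2) + α) < 0 := sin_neg_range (n := n) (by linarith) hlt
    have hc : 0 < cos (r * (π / 2) + α) := by rw [cos_end]; linarith
    have hUe : 0 < U r τ α β (π / 2, y) := by
      unfold U
      simp only [cos_pi_div_two, mul_zero, zero_mul, add_zero]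
      exact mul_pos hc hcy
    refine (good_side cos_pi_div_two ⟨hy.1.le, hy.2.le⟩ hUe).of_joined ?_
    apply joined_horiz
    intro x' hx'
    rw [uIcc_of_le hx.2.le] at hx'
    rcases hx'.2.lt_or_eq with h | h
    · apply hmono x' ⟨hx'.1, h⟩
      have := hWm.monotoneOn ⟨by linarith [hx.1, hx'.1], hx'.2⟩
        (show π / 2 ∈ Icc (-(π / 2)) (π / 2) from ⟨by linarith, le_rfl⟩) hx'.2
      linarith
    · rw [h]; exact hUe
  · left
    have hc : cos (r * (π / 2) + α) = 0 := by rw [cos_end, heq, sin_two_int]; simp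
    have hs : sin (r * (π / 2) + α) = 1 := by rw [sin_end, heq, cos_two_int]
    obtain ⟨x₁, hx₁, hk⟩ := near (κ := τ * r) (by nlinarith) hc hs hx.2
    have hW1 : W r x₁ + α ≤ 2 * n * π := by
      have := hWm ⟨by linarith [hx.1, hx₁.1], hx₁.2.le⟩
        (show π / 2 ∈ Icc (-(π / 2)) (π / 2) from ⟨by linarith, le_rfl⟩) hx₁.2
      linarith
    have hU1 := hmono x₁ ⟨hx₁.1.le, hx₁.2⟩ hW1
    refine (good_T hr hτ ⟨by linarith [hx.1, hx₁.1], hx₁.2⟩ hk ⟨hy.1.le, hy.2.le⟩ hU1).of_joined ?_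
    apply joined_horiz
    intro x' hx'
    rw [uIcc_of_le hx₁.1.le] at hx'
    apply hmono x' ⟨hx'.1, by linarith [hx'.2, hx₁.2]⟩
    have := hWm.monotoneOn ⟨by linarith [hx.1, hx'.1], by linarith [hx'.2, hx₁.2]⟩
      (show x₁ ∈ Icc (-(π / 2)) (π / 2) from ⟨by linarith [hx.1, hx₁.1], hx₁.2.le⟩) hx'.2
    linarith
  · right
    have hsub : Icc x (π / 2) ⊆ Icc (-(π / 2)) (π / 2) := Icc_subset_Icc hx.1.le le_rfl
    have hcont : ContinuousOn (fun t => W r t + α) (Icc x (π / 2)) :=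
      ((continuousOn_W hr).mono hsub).add continuousOn_const
    obtain ⟨x₁, hx₁, hW1⟩ := intermediate_value_Icc hx.2.le hcont
      (show 2 * (n : ℝ) * π ∈ Icc (W r x + α) (W r (π / 2) + α) from ⟨h2, hgt.le⟩)
    have hx12 : x₁ < π / 2 := by
      rcases hx₁.2.lt_or_eq with h | h
      · exact h
      · rw [h] at hW1; simp only at hW1; linarith
    refine ⟨x₁, ⟨hx₁.1, hx12⟩, hW1, ?_⟩
    apply joined_horiz
    intro x' hx'
    rw [uIcc_of_le hx₁.1] at hx'
    apply hmono x' ⟨hx'.1, by linarith [hx'.2]⟩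
    have := hWm.monotoneOn ⟨by linarith [hx.1, hx'.1], by linarith [hx'.2]⟩
      (show x₁ ∈ Icc (-(π / 2)) (π / 2) from ⟨by linarith [hx.1, hx₁.1], hx12.le⟩) hx'.2
    simp only at hW1
    linarith

/-- near the end the quotient is large in absolute value -/
theorem exists_end {r τ α : ℝ} (hr : 1 < r) (hτ : 0 < τ) (hτ1 : τ < 1) :
    ∃ x₁ ∈ Ioo (-(π / 2)) (π / 2), τ * r * cos x₁ < cos (r * x₁ + α) ∨
      τ * r * cos x₁ < cos (r * x₁ + (α + π)) := by
  have hpi := pi_pos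
  have hkr : τ * r < r := by nlinarith
  by_cases hc : cos (r * (π / 2) + α) = 0
  · have hs := sin_sq_add_cos_sq (r * (π / 2) + α)
    rw [hc] at hs
    have hs' : sin (r * (π / 2) + α) = 1 ∨ sin (r * (π / 2) + α) = -1 := by
      have : (sin (r * (π / 2) + α) - 1) * (sin (r * (π / 2) + α) + 1) = 0 := by nlinarith
      rcases mul_eq_zero.1 this with h | h
      · left; linarith
      · right; linarith
    rcases hs' with h | h
    · obtain ⟨x, hx, hk⟩ := near (x₀ := -(π / 2)) hkr hc h (by linarith)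
      exact ⟨x, hx, Or.inl hk⟩
    · have hc' : cos (r * (π / 2) + (α + π)) = 0 := by rw [← add_assoc, cos_add_pi, hc]; simp
      have hs'' : sin (r * (π / 2) + (α + π)) = 1 := by rw [← add_assoc, sin_add_pi, h]; simp
      obtain ⟨x, hx, hk⟩ := near (x₀ := -(π / 2)) hkr hc' hs'' (by linarith)
      exact ⟨x, hx, Or.inr hk⟩
  · have hcont : Continuous fun x => |cos (r * x + α)| - τ * r * cos x := by fun_prop
    have hpos : 0 < |cos (r * (π / 2) + α)| - τ * r * cos (π / 2) := by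
      rw [cos_pi_div_two]; simpa using hc
    have h3 : ∀ᶠ x in 𝓝[<] (π / 2), 0 < |cos (r * x + α)| - τ * r * cos x :=
      (hcont.continuousAt.eventually (lt_mem_nhds hpos)).filter_mono nhdsWithin_le_nhds
    have h4 : ∀ᶠ x in 𝓝[<] (π / 2), x ∈ Ioo (-(π / 2)) (π / 2) := Ioo_mem_nhdsLT (by linarith)
    obtain ⟨x, hx3, hx4⟩ := (h3.and h4).exists
    refine ⟨x, hx4, ?_⟩
    rcases abs_choice (cos (r * x + α)) with h | h
    · left; rw [h] at hx3; linarith
    · right; rw [h] at hx3; rw [← add_assoc, cos_add_pi]; linarith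

/-- points on the top side of the cell -/
theorem good_top {r τ α β x : ℝ} (hr : 1 < r) (hτ : 0 < τ) (hτ1 : τ < 1)
    (hx : x ∈ Ioo (-(π / 2)) (π / 2)) (hU : 0 < U r τ α β (x, π / 2)) :
    Good r τ α β (x, π / 2) := by
  have hpi := pi_pos
  obtain ⟨x₁, hx₁, h⟩ := exists_end (α := α) hr hτ hτ1
  have hval : ∀ x', U r τ α β (x', π / 2) = τ * cos x' * cos (r * (π / 2) + β) := by
    intro x'; unfold U; simp
  have hcx := cos_pos_of_mem_Ioo hx
  have hb : 0 < cos (r * (π / 2) + β) := by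
    rw [hval] at hU
    exact (mul_pos_iff_of_pos_left (mul_pos hτ hcx)).1 hU
  have hU' : ∀ x' ∈ Ioo (-(π / 2)) (π / 2), 0 < U r τ α β (x', π / 2) := by
    intro x' hx'
    rw [hval]
    have := cos_pos_of_mem_Ioo hx'
    positivity
  have hj : JoinedIn {w : ℝ × ℝ | 0 < U r τ α β w} (x, π / 2) (x₁, π / 2) := by
    apply joined_horiz
    intro x' hx'
    exact hU' x' (Set.ordConnected_Ioo.uIcc_subset hx hx₁ hx')
  refine Good.of_joined ?_ hj
  rcases h with h | h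
  · exact good_T hr hτ hx₁ h ⟨by linarith, le_rfl⟩ (hU' x₁ hx₁)
  · apply good_reflect_top
    rw [show π - π / 2 = π / 2 by ring]
    refine good_T hr hτ hx₁ h ⟨by linarith, le_rfl⟩ ?_
    have := U_reflect_top r τ α β x₁ (π / 2)
    rw [show π - π / 2 = π / 2 by ring] at this
    rw [this]
    exact hU' x₁ hx₁

end Pool.Agent.V8H62.Nod
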