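import Pool.Agent.V8H62.Nod.Core

/-!
# The core induction
-/

open Set Real Filter Topology

namespace Pool.Agent.V8H62.Nod

theorem D_le_iff {r : ℝ} (hr : 1 < r) {a b : ℝ} : D r a < D r b ↔ Q2 r a < Q2 r b :=
  Real.sqrt_lt_sqrt_iff (Q2_pos hr a).le

theorem D_eq_exp {r : ℝ} (hr : 1 < r) (a : ℝ) : D r a = Real.exp (- L r a) := by
  unfold D L
  rw [Real.sqrt_eq_rpow, Real.rpow_def_of_pos (Q2_pos hr a)]
  congr 1; ring

theorem lt_of_D_lt {r : ℝ} (hr : 1 < r) {a b : ℝ} (ha : a ∈ Icc 0 (π / 2))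
    (hb : b ∈ Icc 0 (π / 2)) (h : D r b < D r a) : a < b := by
  rw [D_le_iff hr] at h
  unfold Q2 at h
  have h1 := sin_sq_add_cos_sq a
  have h2 := sin_sq_add_cos_sq b
  have hr2 : 0 < r ^ 2 - 1 := by nlinarith
  have h3 : cos b ^ 2 < cos a ^ 2 := by
    by_contra hle
    push Not at hle
    have : (r ^ 2 - 1) * cos a ^ 2 ≤ (r ^ 2 - 1) * cos b ^ 2 :=
      mul_le_mul_of_nonneg_left hle hr2.le
    nlinarith
  have ha0 : 0 ≤ cos a := cos_nonneg_of_mem_Icc ⟨by linarith [ha.1, pi_pos], ha.2⟩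
  have hb0 : 0 ≤ cos b := cos_nonneg_of_mem_Icc ⟨by linarith [hb.1, pi_pos], hb.2⟩
  have h4 : cos b < cos a := by nlinarith
  by_contra hle
  push Not at hle
  have := cos_le_cos_of_nonneg_of_le_pi hb.1 (by linarith [ha.2, pi_pos]) hle
  linarith

theorem D_pi_div_two (r : ℝ) : D r (π / 2) = 1 := by
  unfold D Q2; simp

theorem core {r τ α β : ℝ} (hr : 1 < r) (hτ : 0 < τ) (hτ1 : τ < 1) (m : ℕ) :
    ∀ n : ℤ, W r (π / 2) + α ≤ 2 * (n + m) * π → ∀ φ₁ ∈ Ico 0 (π / 2),
      W r φ₁ + α = 2 * n * π → ∀ y ∈ Ioo 0 (π / 2), 0 < U r τ α β (φ₁, y) →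
      Good r τ α β (φ₁, y) := by
  have hpi := pi_pos
  have hr0 : 0 < r := by linarith
  have hWm := strictMonoOn_W hr
  induction m with
  | zero =>
    intro n hn φ₁ hφ₁ hW
    have := hWm (show φ₁ ∈ Icc (-(π / 2)) (π / 2) from ⟨by linarith [hφ₁.1], hφ₁.2.le⟩)
      (show π / 2 ∈ Icc (-(π / 2)) (π / 2) from ⟨by linarith, le_rfl⟩) hφ₁.2
    simp at hn
    linarith
  | succ m ih =>
    intro n hn φ₁ hφ₁ hW y hy hU
    by_cases hall : ∀ y' ∈ Icc 0 y, 0 < U r τ α β (φ₁, y')
    · exact good_of_vert_zero hy.1.le hall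
    push Not at hall
    have hφI : φ₁ ∈ Ioo (-(π / 2)) (π / 2) := ⟨by linarith [hφ₁.1], hφ₁.2⟩
    have hyI : y ∈ Ioo (-(π / 2)) (π / 2) := ⟨by linarith [hy.1], hy.2⟩
    -- the highest blocked level below `y`
    have hcontU : Continuous fun y' => U r τ α β (φ₁, y') := by
      unfold U; fun_prop
    obtain ⟨ys, hys, hysmax⟩ : ∃ ys, IsGreatest {y' | y' ∈ Icc 0 y ∧ U r τ α β (φ₁, y') ≤ 0} ys := by
      apply IsCompact.exists_isGreatest
      · have : {y' | y' ∈ Icc 0 y ∧ U r τ α β (φ₁, y') ≤ 0} =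
            Icc 0 y ∩ {y' | U r τ α β (φ₁, y') ≤ 0} := rfl
        rw [this]
        exact isCompact_Icc.inter_right (isClosed_le hcontU continuous_const)
      · obtain ⟨y', h1, h2⟩ := hall
        exact ⟨y', h1, h2⟩
    obtain ⟨hys1, hys2⟩ := hys
    have hysy : ys < y := by
      rcases hys1.2.lt_or_eq with h | h
      · exact h
      · rw [h] at hys2; linarith
    have hysI : ys ∈ Ioo (-(π / 2)) (π / 2) := ⟨by linarith [hys1.1], by linarith [hy.2]⟩
    have habove : ∀ y' ∈ Ioc ys y, 0 < U r τ α β (φ₁, y') := by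
      intro y' hy'
      by_contra hle
      push Not at hle
      have : y' ≤ ys := hysmax ⟨⟨by linarith [hys1.1, hy'.1], hy'.2⟩, hle⟩
      linarith [hy'.1]
    have hD1 := D_pos hr φ₁
    have hAφ : Af r α φ₁ = r / D r φ₁ := A_top hr hφI hW
    have hBs : τ * Af r β ys ≤ -(r / D r φ₁) := by
      have := hys2
      by_contra hlt
      push Not at hlt
      have h2 : 0 < Af r α φ₁ + τ * Af r β ys := by rw [hAφ]; linarith
      rw [← U_pos_iff hφI hysI] at h2
      linarith
    -- the angle at the blocked level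
    obtain ⟨k, hk1, hk2⟩ := exists_int_range (W r ys + β)
    have hk3 : W r ys + β < 2 * k * π := by
      by_contra hge
      push Not at hge
      -- choose a slightly higher level
      have hWc : ContinuousAt (fun t => W r t + β) ys :=
        ((hasDerivAt_W hr (Ioo_subset_Icc_self hysI)).continuousAt).add continuousAt_const
      have h3 : ∀ᶠ t in 𝓝[>] ys, W r t + β < (2 * k + 1) * π :=
        (hWc.eventually (gt_mem_nhds hk2)).filter_mono nhdsWithin_le_nhds
      have h4 : ∀ᶠ t in 𝓝[>] ys, t ∈ Ioo ys y := Ioo_mem_nhdsGT hysy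
      obtain ⟨t, ht3, ht4⟩ := (h3.and h4).exists
      have htI : t ∈ Ioo (-(π / 2)) (π / 2) := ⟨by linarith [hysI.1, ht4.1], by linarith [hyI.2, ht4.2]⟩
      have h5 := anti_A hr hysI.1 ht4.1.le htI.2 hge ht3.le
      have h6 := habove t ⟨ht4.1, ht4.2.le⟩
      rw [U_pos_iff hφI htI, hAφ] at h6
      have h7 : τ * Af r β t ≤ τ * Af r β ys := mul_le_mul_of_nonneg_left h5 hτ.le
      linarith
    -- the amplitude at φ₁ is at least one
    have hF1 : 1 ≤ r / D r φ₁ := by
      rw [le_div_iff₀ hD1, one_mul]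
      have := Q2_le hr φ₁
      rw [← D_sq hr] at this
      exact (sq_le_sq₀ hD1.le hr0.le).1 this
    have hk0 : β < (2 * k - 1) * π := by
      by_contra hge
      push Not at hge
      have h1 := mono_A hr (α := β) (a := 0) (b := ys) (n := k) (by linarith) hys1.1 hysI.2
        (by rw [W_zero hr]; linarith) hk3.le
      have h2 : Af r β 0 = cos β := by unfold Af; simp
      rw [h2] at h1
      have h3 := neg_one_le_cos β
      nlinarith
    have hpI : ∀ {t : ℝ}, t ∈ Icc 0 (π / 2) → t ∈ Icc (-(π / 2)) (π / 2) :=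
      fun ht => ⟨by linarith [ht.1], ht.2⟩
    have hhalf : π / 2 ∈ Icc (-(π / 2)) (π / 2) := ⟨by linarith, le_rfl⟩
    -- the bottom arc
    obtain ⟨φm, hφm, hWφm⟩ : ∃ t ∈ Icc 0 ys, W r t + β = (2 * k - 1) * π := by
      have hcont : ContinuousOn (fun t => W r t + β) (Icc 0 ys) :=
        ((continuousOn_W hr).mono (Icc_subset_Icc (by linarith) hysI.2.le)).add continuousOn_const
      exact intermediate_value_Icc hys1.1 hcont
        (show (2 * (k : ℝ) - 1) * π ∈ Icc (W r 0 + β) (W r ys + β) from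
          ⟨by rw [W_zero hr]; linarith, hk1⟩)
    have hφmI : φm ∈ Ioo (-(π / 2)) (π / 2) := ⟨by linarith [hφm.1], by linarith [hφm.2, hysI.2]⟩
    have hBm : Af r β φm = -(r / D r φm) :=
      A_bot (n := k - 1) hr hφmI (by push_cast; linarith)
    have hDm := D_pos hr φm
    have hle1 : r / D r φ₁ ≤ τ * (r / D r φm) := by
      have h1 := mono_A hr (α := β) (a := φm) (b := ys) (n := k) hφmI.1 hφm.2 hysI.2
        (by linarith) hk3.le
      rw [hBm] at h1
      have h2 : τ * -(r / D r φm) ≤ τ * Af r β ys := mul_le_mul_of_nonneg_left h1 hτ.le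
      linarith
    have hle2 : D r φm ≤ τ * D r φ₁ := by
      rw [← mul_div_assoc, div_le_div_iff₀ hD1 hDm] at hle1
      have : r * D r φm ≤ r * (τ * D r φ₁) := by linarith
      exact le_of_mul_le_mul_left this hr0
    have hφ1m : φ₁ < φm := by
      apply lt_of_D_lt hr ⟨hφ₁.1, hφ₁.2.le⟩ ⟨hφm.1, hφmI.2.le⟩
      nlinarith
    -- in the branch above `ys`
    have hbranch : ∀ y' ∈ Ico y (π / 2), W r y' + β ≤ 2 * k * π → 0 < U r τ α β (φ₁, y') := by
      intro y' hy' hW'
      have hy'I : y' ∈ Ioo (-(π / 2)) (π / 2) := ⟨by linarith [hy'.1, hy.1], hy'.2⟩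
      rw [U_pos_iff hφI hy'I]
      rw [U_pos_iff hφI hyI] at hU
      have hWy : W r ys ≤ W r y := (hWm (Ioo_subset_Icc_self hysI) (Ioo_subset_Icc_self hyI) hysy).le
      have := mono_A hr (α := β) (a := y) (b := y') (n := k) hyI.1 hy'.1 hy'.2
        (by linarith) hW'
      have h2 := mul_le_mul_of_nonneg_left this hτ.le
      linarith
    rcases lt_or_ge (W r (π / 2) + β) (2 * k * π) with hlt | hge
    · -- the top of the cell is reached
      have hWs : W r ys < W r (π / 2) := hWm (Ioo_subset_Icc_self hysI) hhalf hysI.2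
      have hs : sin (W r (π / 2) + β) < 0 := sin_neg_range (n := k) (by linarith) hlt
      have hUtop : 0 < U r τ α β (φ₁, π / 2) := by
        unfold U
        simp only [cos_pi_div_two, mul_zero, zero_add]
        rw [cos_end]
        have := cos_pos_of_mem_Ioo hφI
        have h2 : 0 < - sin (W r (π / 2) + β) := by linarith
        positivity
      refine (good_top hr hτ hτ1 hφI hUtop).of_joined ?_
      apply joined_vert
      intro y' hy'
      rw [uIcc_of_le hy.2.le] at hy'
      rcases hy'.2.lt_or_eq with h | h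
      · apply hbranch y' ⟨hy'.1, h⟩
        have := hWm.monotoneOn (show y' ∈ Icc (-(π / 2)) (π / 2) from
          ⟨by linarith [hy'.1, hy.1], hy'.2⟩) hhalf hy'.2
        linarith
      · rw [h]; exact hUtop
    · -- the top arc of the branch
      obtain ⟨φM, hφM, hWφM⟩ : ∃ t ∈ Icc ys (π / 2), W r t + β = 2 * k * π := by
        have hcont : ContinuousOn (fun t => W r t + β) (Icc ys (π / 2)) :=
          ((continuousOn_W hr).mono (Icc_subset_Icc hysI.1.le le_rfl)).add continuousOn_const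
        exact intermediate_value_Icc hysI.2.le hcont
          (show 2 * (k : ℝ) * π ∈ Icc (W r ys + β) (W r (π / 2) + β) from ⟨hk3.le, hge⟩)
      have hsM : ys < φM := by
        rcases hφM.1.lt_or_eq with h | h
        · exact h
        · rw [h] at hk3; linarith
      have hφMI : φM ∈ Icc (-(π / 2)) (π / 2) := ⟨by linarith [hysI.1], hφM.2⟩
      -- the next bottom arc in `x`
      have hW1m : W r φ₁ < W r φm :=
        hWm (Ioo_subset_Icc_self hφI) (Ioo_subset_Icc_self hφmI) hφ1m
      have hWMle : W r φM ≤ W r (π / 2) := hWm.monotoneOn hφMI hhalf hφM.2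
      obtain ⟨φ4, hφ4, hWφ4⟩ : ∃ t ∈ Icc φ₁ (π / 2), W r t = W r φ₁ + π := by
        have hcont : ContinuousOn (W r) (Icc φ₁ (π / 2)) :=
          (continuousOn_W hr).mono (Icc_subset_Icc hφI.1.le le_rfl)
        exact intermediate_value_Icc hφ₁.2.le hcont
          (show W r φ₁ + π ∈ Icc (W r φ₁) (W r (π / 2)) from ⟨by linarith, by linarith⟩)
      have hφ14 : φ₁ < φ4 := by
        rcases hφ4.1.lt_or_eq with h | h
        · exact h
        · rw [← h] at hWφ4; linarith
      have hφ4lt : φ4 < π / 2 := by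
        rcases hφ4.2.lt_or_eq with h | h
        · exact h
        · rw [h] at hWφ4; linarith
      have hφ4I : φ4 ∈ Ioo (-(π / 2)) (π / 2) := ⟨by linarith [hφI.1], hφ4lt⟩
      have hmM : φm < φM := lt_of_le_of_lt hφm.2 hsM
      have hconv := conv1 hr (a := φ₁) (b := φ4) (c := φm) (d := φM) hφ₁.1 hφ14 hφ1m hmM hφM.2
        hφ4lt.le (by linarith)
      -- D φM < τ D φ4
      have hDlt : D r φM < τ * D r φ4 := by
        rw [D_eq_exp hr φm, D_eq_exp hr φ₁] at hle2
        have h1 : Real.exp (-L r φm + L r φ₁) ≤ τ := by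
          rw [Real.exp_add]
          calc Real.exp (-L r φm) * Real.exp (L r φ₁)
              ≤ (τ * Real.exp (-L r φ₁)) * Real.exp (L r φ₁) :=
                mul_le_mul_of_nonneg_right hle2 (Real.exp_pos _).le
            _ = τ * (Real.exp (-L r φ₁) * Real.exp (L r φ₁)) := by ring
            _ = τ := by rw [← Real.exp_add]; simp
        rw [D_eq_exp hr φM, D_eq_exp hr φ4]
        have h2 : Real.exp (-L r φM) < Real.exp (-L r φm + L r φ₁) * Real.exp (-L r φ4) := by
          rw [← Real.exp_add]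
          apply Real.exp_lt_exp.2
          linarith
        exact h2.trans_le (mul_le_mul_of_nonneg_right h1 (Real.exp_pos _).le)
      have hDM := D_pos hr φM
      have hD4 := D_pos hr φ4
      -- a good level
      have hlevel : ∃ y₂ ∈ Ioc ys φM, y₂ < π / 2 ∧ r / D r φ4 < τ * Af r β y₂ := by
        rcases hφM.2.lt_or_eq with h | h
        · refine ⟨φM, ⟨hsM, le_rfl⟩, h, ?_⟩
          rw [A_top hr ⟨by linarith [hysI.1], h⟩ hWφM, ← mul_div_assoc, div_lt_div_iff₀ hD4 hDM]
          nlinarith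
        · have hc : cos (r * (π / 2) + β) = 0 := by rw [cos_end, ← h, hWφM, sin_two_int]; simp
          have hs : sin (r * (π / 2) + β) = 1 := by rw [sin_end, ← h, hWφM, cos_two_int]
          have hD1' : D r φM = 1 := by rw [h]; exact D_pi_div_two r
          rw [hD1'] at hDlt
          have hκ : (r / D r φ4) / τ < r := by
            rw [div_div, div_lt_iff₀ (by positivity)]
            have : D r φ4 * τ = τ * D r φ4 := by ring
            nlinarith
          obtain ⟨y₂, hy₂, hk⟩ := near (x₀ := ys) hκ hc hs hysI.2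
          refine ⟨y₂, ⟨hy₂.1, by rw [h]; exact hy₂.2.le⟩, hy₂.2, ?_⟩
          have hcy2 : 0 < cos y₂ := cos_pos_of_mem_Ioo ⟨by linarith [hysI.1, hy₂.1], hy₂.2⟩
          have h1 : (r / D r φ4) / τ < Af r β y₂ := by
            unfold Af
            rw [lt_div_iff₀ hcy2]; exact hk
          rw [div_lt_iff₀ hτ] at h1
          linarith
      obtain ⟨y₂, hy₂, hy₂h, hBy₂⟩ := hlevel
      have hy₂I : y₂ ∈ Ioo (-(π / 2)) (π / 2) := ⟨by linarith [hysI.1, hy₂.1], hy₂h⟩
      have hy₂pos : 0 < y₂ := by linarith [hys1.1, hy₂.1]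
      -- first move: vertically
      have hj1 : JoinedIn {w : ℝ × ℝ | 0 < U r τ α β w} (φ₁, y) (φ₁, y₂) := by
        apply joined_vert
        intro y' hy'
        have hlo : ys < y' := lt_of_lt_of_le (lt_min hysy hy₂.1) hy'.1
        rcases le_or_gt y' y with h | h
        · exact habove y' ⟨hlo, h⟩
        · have hy'2 : y' ≤ y₂ := by
            have := hy'.2
            rcases le_max_iff.1 this with h' | h'
            · linarith
            · exact h'
          apply hbranch y' ⟨h.le, by linarith⟩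
          have := hWm.monotoneOn (show y' ∈ Icc (-(π / 2)) (π / 2) from
            ⟨by linarith [hysI.1], by linarith⟩) hφMI (hy'2.trans hy₂.2)
          linarith
      -- second move: horizontally
      have hA4 : Af r α φ4 = -(r / D r φ4) := A_bot (n := n) hr hφ4I (by linarith)
      have hhor : ∀ x ∈ Icc φ₁ φ4, 0 < U r τ α β (x, y₂) := by
        intro x hx
        have hxI : x ∈ Ioo (-(π / 2)) (π / 2) := ⟨by linarith [hφI.1, hx.1], by linarith [hx.2]⟩
        rw [U_pos_iff hxI hy₂I]
        have hWx : W r φ₁ ≤ W r x :=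
          hWm.monotoneOn (Ioo_subset_Icc_self hφI) (Ioo_subset_Icc_self hxI) hx.1
        have := anti_A hr (α := α) (a := x) (b := φ4) (n := n) hxI.1 hx.2 hφ4lt
          (by linarith) (by linarith)
        rw [hA4] at this
        linarith
      have hj2 : JoinedIn {w : ℝ × ℝ | 0 < U r τ α β w} (φ₁, y₂) (φ4, y₂) := by
        apply joined_horiz
        intro x hx
        rw [uIcc_of_le hφ14.le] at hx
        exact hhor x hx
      refine Good.of_joined ?_ (hj1.trans hj2)
      -- third move: ascend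
      rcases ascend (n := n + 1) hr hτ hτ1 hφ4I ⟨hy₂pos, hy₂h⟩ (hhor φ4 ⟨hφ14.le, le_rfl⟩)
        (by push_cast; linarith) (by push_cast; linarith) with hg | ⟨x₁, hx₁, hWx₁, hj3⟩
      · exact hg
      · refine Good.of_joined ?_ hj3
        refine ih (n + 1) (by push_cast at hn ⊢; linarith) x₁
          ⟨by linarith [hφ₁.1, hx₁.1], hx₁.2⟩ hWx₁ y₂ ⟨hy₂pos, hy₂h⟩ hj3.target_mem

end Pool.Agent.V8H62.Nod
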