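import Pool.Agent.V8H62.Nod.Square

/-!
# Counting nodal domains
-/

open Set Real Filter Topology

namespace Pool.Agent.V8H62.Nod

/-- The number of nodal domains of `u` on the open square `(0,π)²`. -/
noncomputable def nodalCount (u : ℝ × ℝ → ℝ) : ℕ∞ :=
  ENat.card (ConnectedComponents ↥{z : ℝ × ℝ | z ∈ Om ∧ u z ≠ 0})

/-- contraction towards the centre -/
noncomputable def ctr (e : ℝ) (x : ℝ) : ℝ := (1 - e) * x + e * (π / 2)

theorem ctr_mem_open {e x : ℝ} (he : e ∈ Icc (0 : ℝ) 1) (hx : x ∈ Ioo 0 π) : ctr e x ∈ Ioo 0 π := by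
  have hpi := pi_pos
  have := (convex_Ioo (0 : ℝ) π) hx (show π / 2 ∈ Ioo 0 π from ⟨by linarith, by linarith⟩)
    (sub_nonneg.2 he.2) he.1 (by ring)
  simpa [ctr] using this

theorem ctr_mem_of_pos {e x : ℝ} (he : e ∈ Ioc (0 : ℝ) 1) (hx : x ∈ Icc 0 π) : ctr e x ∈ Ioo 0 π := by
  have hpi := pi_pos
  unfold ctr
  constructor
  · have : 0 < e * (π / 2) := mul_pos he.1 (by linarith)
    have : 0 ≤ (1 - e) * x := mul_nonneg (sub_nonneg.2 he.2) hx.1
    linarith
  · have h1 : (1 - e) * x ≤ (1 - e) * π := mul_le_mul_of_nonneg_left hx.2 (sub_nonneg.2 he.2)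
    have h2 : 0 < e * (π / 2) := mul_pos he.1 (by linarith)
    nlinarith

theorem collar {w : ℝ × ℝ → ℝ} (hw : Continuous w) {z₀ z₁ : ℝ × ℝ} (h₀ : z₀ ∈ Om) (h₁ : z₁ ∈ Om)
    (h : JoinedIn {z : ℝ × ℝ | z ∈ Kc ∧ w z ≠ 0} z₀ z₁) :
    JoinedIn {z : ℝ × ℝ | z ∈ Om ∧ w z ≠ 0} z₀ z₁ := by
  obtain ⟨γ, hγ⟩ := h
  have hcont : Continuous fun p : ℝ × unitInterval => w (ctr p.1 (γ p.2).1, ctr p.1 (γ p.2).2) := by
    unfold ctr
    fun_prop
  have hev : ∀ᶠ e in 𝓝 (0 : ℝ), ∀ t ∈ (univ : Set unitInterval),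
      w (ctr e (γ t).1, ctr e (γ t).2) ≠ 0 := by
    apply isCompact_univ.eventually_forall_of_forall_eventually
    intro t _
    have h0 : w (ctr (0 : ℝ) (γ t).1, ctr 0 (γ t).2) ≠ 0 := by
      simpa [ctr] using (hγ t).2
    have hopen : IsOpen {p : ℝ × unitInterval | w (ctr p.1 (γ p.2).1, ctr p.1 (γ p.2).2) ≠ 0} :=
      isOpen_ne_fun hcont continuous_const
    exact hopen.mem_nhds h0
  rw [Metric.eventually_nhds_iff] at hev
  obtain ⟨δ, hδ, hev⟩ := hev
  set e₀ := min (δ / 2) 1 with he₀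
  have he₀pos : 0 < e₀ := lt_min (by linarith) one_pos
  have he₀1 : e₀ ≤ 1 := min_le_right _ _
  have he₀δ : e₀ < δ := lt_of_le_of_lt (min_le_left _ _) (by linarith)
  have hne : ∀ e ∈ Icc 0 e₀, ∀ t, w (ctr e (γ t).1, ctr e (γ t).2) ≠ 0 := by
    intro e he t
    apply hev _ t (mem_univ _)
    rw [Real.dist_eq, sub_zero, abs_of_nonneg he.1]
    linarith [he.2]
  -- leg in the first parameter
  have leg : ∀ t : unitInterval, γ t ∈ Om → JoinedIn {z : ℝ × ℝ | z ∈ Om ∧ w z ≠ 0} (γ t)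
      (ctr e₀ (γ t).1, ctr e₀ (γ t).2) := by
    intro t ht
    refine JoinedIn.ofLine (f := fun s : ℝ => (ctr (s * e₀) (γ t).1, ctr (s * e₀) (γ t).2))
      (by unfold ctr; fun_prop) (by simp [ctr]) (by simp) ?_
    rintro _ ⟨s, hs, rfl⟩
    have h1 : s * e₀ ∈ Icc (0 : ℝ) e₀ :=
      ⟨mul_nonneg hs.1 he₀pos.le, mul_le_of_le_one_left he₀pos.le hs.2⟩
    have h2 : s * e₀ ∈ Icc (0 : ℝ) 1 := ⟨h1.1, h1.2.trans he₀1⟩
    exact ⟨⟨ctr_mem_open h2 ht.1, ctr_mem_open h2 ht.2⟩, hne _ h1 t⟩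
  have l0 := leg 0 (by rw [γ.source]; exact h₀)
  have l1 := leg 1 (by rw [γ.target]; exact h₁)
  have mid : JoinedIn {z : ℝ × ℝ | z ∈ Om ∧ w z ≠ 0} (ctr e₀ (γ 0).1, ctr e₀ (γ 0).2)
      (ctr e₀ (γ 1).1, ctr e₀ (γ 1).2) := by
    refine ⟨{ toFun := fun t => (ctr e₀ (γ t).1, ctr e₀ (γ t).2)
              continuous_toFun := by unfold ctr; fun_prop
              source' := rfl
              target' := rfl }, fun t => ?_⟩
    exact ⟨⟨ctr_mem_of_pos ⟨he₀pos, he₀1⟩ (hγ t).1.1, ctr_mem_of_pos ⟨he₀pos, he₀1⟩ (hγ t).1.2⟩,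
      hne e₀ ⟨he₀pos.le, le_rfl⟩ t⟩
  have := (l0.trans mid).trans l1.symm
  rwa [γ.source, γ.target] at this

theorem same_component {F : Set (ℝ × ℝ)} {z z' : F} (h : JoinedIn F (z : ℝ × ℝ) (z' : ℝ × ℝ)) :
    (z : ConnectedComponents F) = (z' : ConnectedComponents F) := by
  have hj : Joined z z' := h.joined_subtype
  have : z' ∈ pathComponent z := hj
  have h2 := pathComponent_subset_component z this
  exact (ConnectedComponents.coe_eq_coe'.2 h2).symm

theorem count_le {w : ℝ × ℝ → ℝ} (hw : Continuous w) {T : Type*} [Fintype T] (P : T → ℝ × ℝ)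
    (h : ∀ z ∈ Om, w z ≠ 0 → ∃ t, JoinedIn {z : ℝ × ℝ | z ∈ Kc ∧ w z ≠ 0} z (P t)) :
    nodalCount w ≤ Fintype.card T := by
  have hrep : ∀ c : ConnectedComponents ↥{z : ℝ × ℝ | z ∈ Om ∧ w z ≠ 0},
      ∃ z : ↥{z : ℝ × ℝ | z ∈ Om ∧ w z ≠ 0}, (z : ConnectedComponents _) = c :=
    fun c => ConnectedComponents.surjective_coe c
  choose rep hrep using hrep
  have hlab : ∀ c, ∃ t, JoinedIn {z : ℝ × ℝ | z ∈ Kc ∧ w z ≠ 0} (rep c : ℝ × ℝ) (P t) :=
    fun c => h _ (rep c).2.1 (rep c).2.2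
  choose lab hlab using hlab
  have hinj : Function.Injective lab := by
    intro c c' hcc
    have h1 := (hlab c).trans (hcc ▸ (hlab c').symm)
    have h2 := collar hw (rep c).2.1 (rep c').2.1 h1
    have h3 := same_component h2
    rw [hrep, hrep] at h3
    exact h3
  have := ENat.card_le_card_of_injective hinj
  unfold nodalCount
  rwa [ENat.card_eq_coe_fintype_card (α := T)] at this

theorem nodal_le {p q : ℕ} (hqp : q < p) {a b : ℝ} (hb : b ≠ 0) (hab : |b| < |a|) :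
    nodalCount (w2 p q a b) ≤ ((p + 1) * (q + 1) : ℕ) := by
  have := count_le (continuous_w2 p q a b) (T := Fin (p + 1) × Fin (q + 1))
    (fun t => ((t.1 : ℕ) * π / p, (t.2 : ℕ) * π / q)) (by
      intro z hz hne
      exact closed_all hqp hb hab ⟨Ioo_subset_Icc_self hz.1, Ioo_subset_Icc_self hz.2⟩ hne)
  simpa using this

theorem nodal_le_swap {p q : ℕ} (hqp : q < p) {a b : ℝ} (ha : a ≠ 0) (hab : |a| < |b|) :
    nodalCount (w2 p q a b) ≤ ((p + 1) * (q + 1) : ℕ) := by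
  have := count_le (continuous_w2 p q a b) (T := Fin (p + 1) × Fin (q + 1))
    (fun t => ((t.2 : ℕ) * π / q, (t.1 : ℕ) * π / p)) (by
      intro z hz hne
      obtain ⟨t, ht⟩ := closed_all (z := z.swap) hqp ha hab
        ⟨Ioo_subset_Icc_self hz.2, Ioo_subset_Icc_self hz.1⟩ (by rw [w2_swap]; exact hne)
      refine ⟨t, ?_⟩
      have := ht.map continuous_swap
      rw [Prod.swap_swap] at this
      refine this.mono ?_
      rintro _ ⟨z', hz', rfl⟩
      exact ⟨⟨hz'.1.2, hz'.1.1⟩, by rw [w2_swap]; exact hz'.2⟩)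
  simpa using this

/-- reference points for the product function -/
noncomputable def gpt (m i : ℕ) : ℝ := ctr (1 / (2 * (m + 1))) (i * π / m)

theorem gpt_mem {m i : ℕ} (hi : i ≤ m) : gpt m i ∈ Ioo 0 π := by
  apply ctr_mem_of_pos
  · constructor
    · positivity
    · rw [div_le_one (by positivity)]
      have : (0 : ℝ) ≤ m := Nat.cast_nonneg m
      linarith
  · constructor
    · positivity
    · rcases Nat.eq_zero_or_pos m with h | h
      · subst h; simp [pi_pos.le]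
      · have hm : (0 : ℝ) < m := by exact_mod_cast h
        rw [div_le_iff₀ hm, mul_comm]
        apply mul_le_mul_of_nonneg_left _ pi_pos.le
        exact_mod_cast hi

theorem gpt_near {m i : ℕ} (hi : i ≤ m) : |m * gpt m i - i * π| < π / 2 := by
  have hpi := pi_pos
  rcases Nat.eq_zero_or_pos m with h | h
  · subst h
    have : i = 0 := by omega
    subst this
    simp [pi_pos]
  have hm : (0 : ℝ) < m := by exact_mod_cast h
  have hi' : (i : ℝ) ≤ m := by exact_mod_cast hi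
  have e : m * gpt m i - i * π = (1 / (2 * (m + 1))) * (m * π / 2 - i * π) := by
    unfold gpt ctr; field_simp; ring
  rw [e, abs_mul, abs_of_pos (by positivity)]
  have h1 : |m * π / 2 - i * π| ≤ m * π / 2 := by
    rw [abs_le]
    have : (i : ℝ) * π ≤ m * π := mul_le_mul_of_nonneg_right hi' hpi.le
    have : 0 ≤ (i : ℝ) * π := by positivity
    constructor <;> linarith
  calc 1 / (2 * ((m : ℝ) + 1)) * |m * π / 2 - i * π| ≤ 1 / (2 * ((m : ℝ) + 1)) * (m * π / 2) :=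
        mul_le_mul_of_nonneg_left h1 (by positivity)
    _ < π / 2 := by
        rw [div_mul_eq_mul_div, one_mul, div_lt_iff₀ (by positivity)]
        nlinarith

theorem cos_gpt_ne {m i : ℕ} (hi : i ≤ m) : cos (m * gpt m i) ≠ 0 := by
  have h1 := gpt_near hi
  have h2 : cos (m * gpt m i) = cos (m * gpt m i - i * π) * cos ((i : ℤ) * π) := by
    have : m * gpt m i = (m * gpt m i - i * π) + ((i : ℤ) : ℝ) * π := by push_cast; ring
    nth_rewrite 1 [this]
    rw [cos_add, sin_int_mul_pi]; ring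
  rw [h2]
  apply mul_ne_zero
  · rw [abs_lt] at h1
    exact (cos_pos_of_mem_Ioo ⟨by linarith [h1.1], h1.2⟩).ne'
  · rcases cos_int_pi_cases (i : ℤ) with h | h <;> rw [h] <;> norm_num

/-- abstract separation: a continuous function avoiding half-integer multiples of π -/
theorem sep {F : Set (ℝ × ℝ)} {z z' : F} (f : F → ℝ) (hf : Continuous f)
    (hav : ∀ x, cos (f x) ≠ 0) (h : (z : ConnectedComponents F) = (z' : ConnectedComponents F))
    {i k : ℕ} (hi : |f z - i * π| < π / 2) (hk : |f z' - k * π| < π / 2) : i = k := by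
  have hpi := pi_pos
  wlog hik : i < k generalizing z z' i k
  · rcases Nat.lt_or_ge k i with h' | h'
    · exact (this h.symm hk hi h').symm
    · omega
  exfalso
  have h1 : z ∈ connectedComponent z' := ConnectedComponents.coe_eq_coe'.1 h
  have h2 : z' ∈ connectedComponent z' := mem_connectedComponent
  have h3 := isPreconnected_connectedComponent.intermediate_value h1 h2 hf.continuousOn
  rw [abs_lt] at hi hk
  have hik' : (i : ℝ) + 1 ≤ k := by exact_mod_cast hik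
  have hmul : ((i : ℝ) + 1) * π ≤ k * π := mul_le_mul_of_nonneg_right hik' hpi.le
  have h4 : (i : ℝ) * π + π / 2 ∈ Icc (f z) (f z') := ⟨by linarith, by linarith⟩
  obtain ⟨x, _, hx⟩ := h3 h4
  apply hav x
  rw [hx, cos_add, cos_pi_div_two, sin_pi_div_two]
  have := sin_int_mul_pi (i : ℤ)
  push_cast at this
  rw [this]; ring

theorem nodal_ge {p q : ℕ} :
    (((p + 1) * (q + 1) : ℕ) : ℕ∞) ≤ nodalCount (w2 p q 1 0) := by
  have hval : ∀ x y : ℝ, w2 p q 1 0 (x, y) = cos (p * x) * cos (q * y) := by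
    intro x y; unfold w2; simp
  have hmem : ∀ t : Fin (p + 1) × Fin (q + 1),
      (gpt p t.1, gpt q t.2) ∈ {z : ℝ × ℝ | z ∈ Om ∧ w2 p q 1 0 z ≠ 0} := by
    intro t
    have h1 : (t.1 : ℕ) ≤ p := Nat.lt_succ_iff.1 t.1.2
    have h2 : (t.2 : ℕ) ≤ q := Nat.lt_succ_iff.1 t.2.2
    refine ⟨⟨gpt_mem h1, gpt_mem h2⟩, ?_⟩
    rw [hval]
    exact mul_ne_zero (cos_gpt_ne h1) (cos_gpt_ne h2)
  let g : Fin (p + 1) × Fin (q + 1) →
      ConnectedComponents ↥{z : ℝ × ℝ | z ∈ Om ∧ w2 p q 1 0 z ≠ 0} :=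
    fun t => ((⟨(gpt p t.1, gpt q t.2), hmem t⟩ : ↥{z : ℝ × ℝ | z ∈ Om ∧ w2 p q 1 0 z ≠ 0}) :
      ConnectedComponents _)
  have hg : Function.Injective g := by
    intro t t' htt
    have h1 : (t.1 : ℕ) ≤ p := Nat.lt_succ_iff.1 t.1.2
    have h2 : (t.2 : ℕ) ≤ q := Nat.lt_succ_iff.1 t.2.2
    have h1' : (t'.1 : ℕ) ≤ p := Nat.lt_succ_iff.1 t'.1.2
    have h2' : (t'.2 : ℕ) ≤ q := Nat.lt_succ_iff.1 t'.2.2
    have e1 := sep (F := {z : ℝ × ℝ | z ∈ Om ∧ w2 p q 1 0 z ≠ 0})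
      (fun z => p * (z : ℝ × ℝ).1) (by fun_prop) (by
        intro x hx
        apply x.2.2
        rw [show ((x : ℝ × ℝ)) = ((x : ℝ × ℝ).1, (x : ℝ × ℝ).2) from rfl, hval, hx, zero_mul])
      htt (gpt_near h1) (gpt_near h1')
    have e2 := sep (F := {z : ℝ × ℝ | z ∈ Om ∧ w2 p q 1 0 z ≠ 0})
      (fun z => q * (z : ℝ × ℝ).2) (by fun_prop) (by
        intro x hx
        apply x.2.2
        rw [show ((x : ℝ × ℝ)) = ((x : ℝ × ℝ).1, (x : ℝ × ℝ).2) from rfl, hval, hx, mul_zero])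
      htt (gpt_near h2) (gpt_near h2')
    exact Prod.ext (Fin.ext e1) (Fin.ext e2)
  have := ENat.card_le_card_of_injective hg
  unfold nodalCount
  rw [ENat.card_eq_coe_fintype_card] at this
  simpa using this

end Pool.Agent.V8H62.Nod
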