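import Pool.Agent.V8H62.Nod.Count

/-!
# Eigenspaces and the final inequality
-/

open Set Real Filter Topology

namespace Pool.Agent.V8H62.Nod

/-- the product mode `cos mx cos ny` -/
noncomputable def mode (m n : ℕ) : ℝ × ℝ → ℝ := fun z => cos (m * z.1) * cos (n * z.2)

/-- the Neumann eigenspace of the square `(0,π)²` for the eigenvalue `lam`: the span of the modes
`cos mx cos ny` with `m² + n² = lam` -/
noncomputable def E (lam : ℕ) : Submodule ℝ (ℝ × ℝ → ℝ) :=
  Submodule.span ℝ {f | ∃ m n : ℕ, m ^ 2 + n ^ 2 = lam ∧ f = mode m n}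

/-- `Φ^θ_{p,q}` -/
noncomputable def Phi (p q : ℕ) (θ : ℝ) : ℝ × ℝ → ℝ := fun z =>
  cos θ * (cos (p * z.1) * cos (q * z.2)) + sin θ * (cos (q * z.1) * cos (p * z.2))

theorem Phi_eq_w2 (p q : ℕ) (θ : ℝ) : Phi p q θ = w2 p q (cos θ) (sin θ) := rfl

theorem nodalCount_congr {u v : ℝ × ℝ → ℝ} (h : ∀ z, u z ≠ 0 ↔ v z ≠ 0) :
    nodalCount u = nodalCount v := by
  have : {z : ℝ × ℝ | z ∈ Om ∧ u z ≠ 0} = {z : ℝ × ℝ | z ∈ Om ∧ v z ≠ 0} := by
    ext z; simp only [mem_ofPred_eq, h z]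
  unfold nodalCount
  rw [this]

theorem nodalCount_smul {u v : ℝ × ℝ → ℝ} {c : ℝ} (hc : c ≠ 0) (h : ∀ z, u z = c * v z) :
    nodalCount u = nodalCount v :=
  nodalCount_congr fun z => by rw [h z, mul_ne_zero_iff]; simp [hc]

/-- the right-hand side of the claimed identity -/
noncomputable def Mx (p q : ℕ) : ℕ∞ :=
  max (nodalCount (Phi p q 0)) (max (nodalCount (Phi p q (π / 4))) (max (nodalCount (Phi p q (π / 2)))
    (max (nodalCount (Phi p q (3 * π / 4))) (nodalCount (Phi p q π)))))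

theorem nodal_Phi_zero (p q : ℕ) : nodalCount (Phi p q 0) = nodalCount (w2 p q 1 0) := by
  rw [Phi_eq_w2]; simp

theorem cos_three_pi_div_four : cos (3 * π / 4) = -(√2 / 2) := by
  rw [show 3 * π / 4 = π - π / 4 by ring, cos_pi_sub, cos_pi_div_four]

theorem sin_three_pi_div_four : sin (3 * π / 4) = √2 / 2 := by
  rw [show 3 * π / 4 = π - π / 4 by ring, sin_pi_sub, sin_pi_div_four]

theorem nodal_le_Mx {p q : ℕ} (hqp : q < p) {a b : ℝ} (hab : a ≠ 0 ∨ b ≠ 0) :
    nodalCount (w2 p q a b) ≤ Mx p q := by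
  have hge : (((p + 1) * (q + 1) : ℕ) : ℕ∞) ≤ Mx p q := by
    refine (nodal_ge (p := p) (q := q)).trans ?_
    rw [← nodal_Phi_zero]
    exact le_max_left _ _
  have hs2 : (√2 / 2 : ℝ) ≠ 0 := by positivity
  rcases eq_or_ne b 0 with hb | hb
  · -- first mode
    have ha : a ≠ 0 := by
      rcases hab with h | h
      · exact h
      · exact absurd hb h
    subst hb
    have : nodalCount (w2 p q a 0) = nodalCount (Phi p q 0) := by
      apply nodalCount_smul ha
      intro z; rw [Phi_eq_w2]; unfold w2; simp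
    rw [this]
    exact le_max_left _ _
  rcases eq_or_ne a 0 with ha | ha
  · subst ha
    have : nodalCount (w2 p q 0 b) = nodalCount (Phi p q (π / 2)) := by
      apply nodalCount_smul hb
      intro z; rw [Phi_eq_w2]; unfold w2; simp
    rw [this]
    exact (le_max_left _ _).trans ((le_max_right _ _).trans (le_max_right _ _))
  rcases lt_trichotomy |b| |a| with h | h | h
  · exact (nodal_le hqp hb h).trans hge
  · rcases abs_eq_abs.1 h with h' | h'
    · subst h'
      have : nodalCount (w2 p q b b) = nodalCount (Phi p q (π / 4)) := by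
        apply nodalCount_smul (c := b / (√2 / 2)) (div_ne_zero hb hs2)
        intro z; rw [Phi_eq_w2]; unfold w2
        rw [cos_pi_div_four, sin_pi_div_four]
        field_simp
      rw [this]
      exact (le_max_left _ _).trans (le_max_right _ _)
    · subst h'
      have : nodalCount (w2 p q a (-a)) = nodalCount (Phi p q (3 * π / 4)) := by
        apply nodalCount_smul (c := -(a / (√2 / 2))) (neg_ne_zero.2 (div_ne_zero ha hs2))
        intro z; rw [Phi_eq_w2]; unfold w2
        rw [cos_three_pi_div_four, sin_three_pi_div_four]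
        field_simp
        ring
      rw [this]
      exact (le_max_left _ _).trans ((le_max_right _ _).trans ((le_max_right _ _).trans
        (le_max_right _ _)))
  · exact (nodal_le_swap hqp ha h).trans hge

/-! ### linear independence of the modes -/

/-- the averaging operator -/
noncomputable def avg : (ℝ → ℝ) →ₗ[ℝ] (ℝ → ℝ) where
  toFun f := fun x => f (x + 1) + f (x - 1)
  map_add' f g := by funext x; simp only [Pi.add_apply]; ring
  map_smul' c f := by funext x; simp only [Pi.smul_apply, smul_eq_mul, RingHom.id_apply]; ring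

theorem cos_nat_inj {m n : ℕ} (h : cos (m : ℝ) = cos (n : ℝ)) : m = n := by
  rw [cos_eq_cos_iff] at h
  obtain ⟨k, hk⟩ := h
  have hirr := irrational_pi
  have hk0 : k = 0 := by
    by_contra hk0
    have hkr : (k : ℝ) ≠ 0 := by exact_mod_cast hk0
    apply hirr
    rcases hk with hk | hk
    · refine ⟨((n : ℚ) - m) / (2 * k), ?_⟩
      push_cast
      rw [div_eq_iff (by positivity)]
      linarith
    · refine ⟨((n : ℚ) + m) / (2 * k), ?_⟩
      push_cast
      rw [div_eq_iff (by positivity)]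
      linarith
  subst hk0
  rcases hk with hk | hk
  · simp at hk; exact hk.symm
  · rw [Int.cast_zero, mul_zero, zero_mul, zero_sub] at hk
    have h1 : (0 : ℝ) ≤ m := Nat.cast_nonneg m
    have h2 : (0 : ℝ) ≤ n := Nat.cast_nonneg n
    have h3 : (m : ℝ) = 0 := by linarith
    have h4 : (n : ℝ) = 0 := by linarith
    have h5 : m = 0 := by exact_mod_cast h3
    have h6 : n = 0 := by exact_mod_cast h4
    rw [h5, h6]

theorem linInd_cos : LinearIndependent ℝ (fun m : ℕ => (fun x : ℝ => cos (m * x))) := by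
  apply Module.End.eigenvectors_linearIndependent' (R := ℝ) (avg : Module.End ℝ (ℝ → ℝ))
    (fun m : ℕ => 2 * cos (m : ℝ))
  · intro m n h
    exact cos_nat_inj (by simpa using h)
  · intro m
    refine ⟨?_, ?_⟩
    · rw [Module.End.mem_eigenspace_iff]
      funext x
      simp only [avg, LinearMap.coe_mk, AddHom.coe_mk, Pi.smul_apply, smul_eq_mul]
      rw [mul_add, mul_sub, mul_one, cos_add, cos_sub]
      ring
    · intro h
      have := congrFun h 0
      simp at this

/-- the index set of the modes -/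
abbrev Ix (lam : ℕ) : Type := {mn : ℕ × ℕ // mn.1 ^ 2 + mn.2 ^ 2 = lam}

instance (lam : ℕ) : Finite (Ix lam) := by
  have : Function.Injective (fun x : Ix lam => ((⟨x.1.1, by
      have := x.2; nlinarith [Nat.zero_le (x.1.2 ^ 2), Nat.le_self_pow two_ne_zero x.1.1]⟩,
      ⟨x.1.2, by have := x.2; nlinarith [Nat.zero_le (x.1.1 ^ 2), Nat.le_self_pow two_ne_zero x.1.2]⟩) :
      Fin (lam + 1) × Fin (lam + 1))) := by
    intro x y h
    simp only [Prod.mk.injEq, Fin.mk.injEq] at h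
    exact Subtype.ext (Prod.ext h.1 h.2)
  exact Finite.of_injective _ this

theorem linInd_mode (lam : ℕ) :
    LinearIndependent ℝ (fun x : Ix lam => mode x.1.1 x.1.2) := by
  let R : (ℝ × ℝ → ℝ) →ₗ[ℝ] (ℝ → ℝ) :=
    { toFun := fun f x => f (x, 0)
      map_add' := fun f g => rfl
      map_smul' := fun c f => rfl }
  apply LinearIndependent.of_comp R
  have e : (R ∘ fun x : Ix lam => mode x.1.1 x.1.2) =
      (fun m : ℕ => (fun x : ℝ => cos (m * x))) ∘ (fun x : Ix lam => x.1.1) := by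
    funext x t
    simp [R, mode]
  rw [e]
  apply linInd_cos.comp
  intro x y h
  have hx := x.2
  have hy := y.2
  simp only at h
  rw [h] at hx
  have h2 : x.1.2 ^ 2 = y.1.2 ^ 2 := by omega
  have h3 : x.1.2 = y.1.2 := by
    exact (Nat.pow_left_injective two_ne_zero) h2
  exact Subtype.ext (Prod.ext h h3)

theorem E_eq_span_range (lam : ℕ) :
    E lam = Submodule.span ℝ (Set.range (fun x : Ix lam => mode x.1.1 x.1.2)) := by
  unfold E
  congr 1
  ext f
  constructor
  · rintro ⟨m, n, h, rfl⟩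
    exact ⟨⟨(m, n), h⟩, rfl⟩
  · rintro ⟨⟨⟨m, n⟩, h⟩, rfl⟩
    exact ⟨m, n, h, rfl⟩

theorem finrank_E (lam : ℕ) : Module.finrank ℝ (E lam) = Nat.card (Ix lam) := by
  have := Fintype.ofFinite (Ix lam)
  rw [E_eq_span_range, finrank_span_eq_card (linInd_mode lam), Nat.card_eq_fintype_card]

theorem exists_pair {lam : ℕ} (h : Module.finrank ℝ (E lam) = 2) :
    ∃ p q : ℕ, q < p ∧
      (∀ m n : ℕ, m ^ 2 + n ^ 2 = lam ↔ (m = p ∧ n = q) ∨ (m = q ∧ n = p)) := by
  rw [finrank_E, Nat.card_eq_two_iff] at h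
  obtain ⟨x, y, hxy, huniv⟩ := h
  have hall : ∀ z : Ix lam, z = x ∨ z = y := by
    intro z
    have : z ∈ ({x, y} : Set (Ix lam)) := by rw [huniv]; trivial
    simpa using this
  -- a pair with different entries
  have hne : ∃ m n : ℕ, m ^ 2 + n ^ 2 = lam ∧ m ≠ n := by
    by_contra hcon
    push Not at hcon
    have hx := hcon x.1.1 x.1.2 x.2
    have hy := hcon y.1.1 y.1.2 y.2
    have hx2 := x.2
    have hy2 := y.2
    rw [← hx] at hx2
    rw [← hy] at hy2
    have h1 : x.1.1 ^ 2 = y.1.1 ^ 2 := by omega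
    have h2 : x.1.1 = y.1.1 := (Nat.pow_left_injective two_ne_zero) h1
    apply hxy
    exact Subtype.ext (Prod.ext h2 (by rw [← hx, ← hy]; exact h2))
  have hne' : ∃ p q : ℕ, p ^ 2 + q ^ 2 = lam ∧ q < p := by
    obtain ⟨m, n, h1, h2⟩ := hne
    rcases Nat.lt_or_ge n m with h | h
    · exact ⟨m, n, h1, h⟩
    · exact ⟨n, m, by omega, by omega⟩
  obtain ⟨p, q, hpq, hlt⟩ := hne'
  refine ⟨p, q, hlt, fun m n => ⟨fun hmn => ?_, ?_⟩⟩
  · let X : Ix lam := ⟨(p, q), hpq⟩
    let Y : Ix lam := ⟨(q, p), by rw [← hpq]; ring⟩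
    let Z : Ix lam := ⟨(m, n), hmn⟩
    have hXY : X ≠ Y := by
      intro hh
      have := congrArg (fun t : Ix lam => t.1.1) hh
      simp only [X, Y] at this
      omega
    have hZ : Z = X ∨ Z = Y := by
      rcases hall X with h1 | h1 <;> rcases hall Y with h2 | h2 <;> rcases hall Z with h3 | h3
      · exact absurd (h1.trans h2.symm) hXY
      · exact absurd (h1.trans h2.symm) hXY
      · left; rw [h3, h1]
      · right; rw [h3, h2]
      · right; rw [h3, h2]
      · left; rw [h3, h1]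
      · exact absurd (h1.trans h2.symm) hXY
      · exact absurd (h1.trans h2.symm) hXY
    rcases hZ with h | h
    · left
      have := congrArg (fun t : Ix lam => t.1) h
      simpa [X, Z] using this
    · right
      have := congrArg (fun t : Ix lam => t.1) h
      simpa [Y, Z] using this
  · rintro (⟨rfl, rfl⟩ | ⟨rfl, rfl⟩)
    · exact hpq
    · rw [← hpq]; ring

theorem mem_E_iff {lam p q : ℕ}
    (h : ∀ m n : ℕ, m ^ 2 + n ^ 2 = lam ↔ (m = p ∧ n = q) ∨ (m = q ∧ n = p))
    (u : ℝ × ℝ → ℝ) : u ∈ E lam ↔ ∃ a b : ℝ, u = w2 p q a b := by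
  have e : {f | ∃ m n : ℕ, m ^ 2 + n ^ 2 = lam ∧ f = mode m n} = {mode p q, mode q p} := by
    ext f
    constructor
    · rintro ⟨m, n, hmn, rfl⟩
      rcases (h m n).1 hmn with ⟨rfl, rfl⟩ | ⟨rfl, rfl⟩
      · left; rfl
      · right; rfl
    · rintro (rfl | rfl)
      · exact ⟨p, q, (h p q).2 (Or.inl ⟨rfl, rfl⟩), rfl⟩
      · exact ⟨q, p, (h q p).2 (Or.inr ⟨rfl, rfl⟩), rfl⟩
  unfold E
  rw [e, Submodule.mem_span_pair]
  constructor
  · rintro ⟨a, b, rfl⟩
    exact ⟨a, b, rfl⟩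
  · rintro ⟨a, b, rfl⟩
    exact ⟨a, b, rfl⟩

theorem w2_ne_zero {p q : ℕ} {a b : ℝ} (h : w2 p q a b ≠ 0) : a ≠ 0 ∨ b ≠ 0 := by
  by_contra hcon
  push Not at hcon
  apply h
  funext z
  unfold w2
  rw [hcon.1, hcon.2]; simp

theorem w2_zero_imp {p q : ℕ} (hqp : q < p) {a b : ℝ} (h : w2 p q a b = 0) : a = 0 ∧ b = 0 := by
  -- at the origin: a + b = 0; at (π/p, 0): -a + b cos(qπ/p) = 0
  have hp0 : (0 : ℝ) < p := by exact_mod_cast (Nat.zero_lt_of_lt hqp)
  have h0 := congrFun h (0, 0)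
  have h1 := congrFun h (π / p, 0)
  unfold w2 at h0 h1
  simp only [mul_zero, cos_zero, mul_one, Pi.zero_apply] at h0 h1
  rw [show (p : ℝ) * (π / p) = π by field_simp, cos_pi] at h1
  have hq : (q : ℝ) * (π / p) < π := by
    have : (q : ℝ) < p := by exact_mod_cast hqp
    rw [mul_div_assoc', div_lt_iff₀ hp0]
    nlinarith [pi_pos]
  have hc : -1 < cos (q * (π / p)) := by
    rw [← cos_pi]
    apply cos_lt_cos_of_nonneg_of_le_pi (by positivity) le_rfl hq
  have hb : b * (1 + cos (q * (π / p))) = 0 := by linarith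
  rcases mul_eq_zero.1 hb with h2 | h2
  · exact ⟨by linarith, h2⟩
  · linarith

theorem Phi_ne_zero {p q : ℕ} (hqp : q < p) (θ : ℝ) : Phi p q θ ≠ 0 := by
  intro h
  rw [Phi_eq_w2] at h
  obtain ⟨h1, h2⟩ := w2_zero_imp hqp h
  have := sin_sq_add_cos_sq θ
  rw [h1, h2] at this
  norm_num at this

theorem main {lam : ℕ} (hdim : Module.finrank ℝ (E lam) = 2) :
    ∃ p q : ℕ, q < p ∧
      (∀ m n : ℕ, m ^ 2 + n ^ 2 = lam ↔ (m = p ∧ n = q) ∨ (m = q ∧ n = p)) ∧
      IsGreatest {k : ℕ∞ | ∃ u ∈ E lam, u ≠ 0 ∧ nodalCount u = k} (Mx p q) := by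
  obtain ⟨p, q, hqp, huniq⟩ := exists_pair hdim
  refine ⟨p, q, hqp, huniq, ?_, ?_⟩
  · -- attained
    have hmem : ∀ θ, nodalCount (Phi p q θ) ∈
        {k : ℕ∞ | ∃ u ∈ E lam, u ≠ 0 ∧ nodalCount u = k} := fun θ =>
      ⟨Phi p q θ, (mem_E_iff huniq _).2 ⟨cos θ, sin θ, rfl⟩, Phi_ne_zero hqp θ, rfl⟩
    have hmax : ∀ {S : Set ℕ∞} {x y : ℕ∞}, x ∈ S → y ∈ S → max x y ∈ S := by
      intro S x y hx hy
      rcases max_choice x y with h | h <;> rw [h] <;> assumption
    exact hmax (hmem _) (hmax (hmem _) (hmax (hmem _) (hmax (hmem _) (hmem _))))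
  · rintro k ⟨u, hu, hu0, rfl⟩
    obtain ⟨a, b, rfl⟩ := (mem_E_iff huniq _).1 hu
    exact nodal_le_Mx hqp (w2_ne_zero hu0)

end Pool.Agent.V8H62.Nod
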