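import Pool.Agent.V8H62.Nod.Plane

/-!
# Lattice lines and the planar theorem
-/

open Set Real Filter Topology

namespace Pool.Agent.V8H62.Nod

theorem cos_int_pi_sq (i : ℤ) : cos (i * π) ^ 2 = 1 := by
  have := sin_sq_add_cos_sq ((i : ℝ) * π)
  rw [sin_int_mul_pi] at this
  linarith

theorem cos_int_pi_cases (i : ℤ) : cos (i * π) = 1 ∨ cos (i * π) = -1 := by
  have h : (cos (i * π) - 1) * (cos (i * π) + 1) = 0 := by
    have := cos_int_pi_sq i; linarith
  rcases mul_eq_zero.1 h with h | h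
  · left; linarith
  · right; linarith

theorem line_left {r s c x₀ : ℝ} {i : ℤ} (hr : 1 < r) (hc : |c| < 1)
    (hi : s * cos (i * π) = 1) (h1 : i * π ≤ r * x₀) (h2 : r * x₀ ≤ (i + 1) * π)
    (hpos : 0 < s * cos (r * x₀) + c * cos x₀) :
    ∀ x ∈ Icc (i * π / r) x₀, 0 < s * cos (r * x) + c * cos x := by
  have hr0 : 0 < r := by linarith
  have hder : ∀ x, HasDerivAt (fun x => s * cos (r * x) + c * cos x)
      (-(s * (r * sin (r * x)) + c * sin x)) x := by
    intro x
    have h1 : HasDerivAt (fun y : ℝ => r * y) r x := by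
      simpa using ((hasDerivAt_id x).const_mul r)
    refine ((h1.cos.const_mul s).add ((hasDerivAt_cos x).const_mul c)).congr_deriv ?_
    ring
  apply pos_of_zero_deriv_neg hder _ hpos
  intro x hx h0
  have hxlo : i * π ≤ r * x := by
    have := hx.1
    rw [div_le_iff₀ hr0] at this
    linarith
  have hxhi : r * x ≤ (i + 1) * π := by nlinarith [hx.2]
  set ξ := r * x - i * π with hξ
  have e1 : s * cos (r * x) = cos ξ := by
    rw [show r * x = ξ + i * π by rw [hξ]; ring, cos_add, sin_int_mul_pi]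
    linear_combination cos ξ * hi
  have e2 : s * sin (r * x) = sin ξ := by
    rw [show r * x = ξ + i * π by rw [hξ]; ring, sin_add, sin_int_mul_pi]
    linear_combination sin ξ * hi
  have hs0 : 0 ≤ sin ξ := sin_nonneg_of_nonneg_of_le_pi (by linarith) (by linarith)
  rw [e1] at h0
  have e3 : s * (r * sin (r * x)) = r * sin ξ := by rw [← e2]; ring
  rw [e3]
  by_contra hle
  push Not at hle
  have h3 : r * sin ξ ≤ -(c * sin x) := by linarith
  have h4 : (r * sin ξ) ^ 2 ≤ (c * sin x) ^ 2 := by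
    have : 0 ≤ r * sin ξ := by positivity
    nlinarith
  have hc1 := sin_sq_add_cos_sq ξ
  have hc2 := sin_sq_add_cos_sq x
  have hc3 : c ^ 2 < 1 := by
    rw [← sq_abs]; nlinarith [abs_nonneg c]
  have h5 : cos ξ ^ 2 = c ^ 2 * cos x ^ 2 := by
    have : cos ξ = -(c * cos x) := by linarith
    rw [this]; ring
  have h6 : sin ξ ^ 2 ≤ (r * sin ξ) ^ 2 := by
    have : 1 ≤ r ^ 2 := by nlinarith
    nlinarith [sq_nonneg (sin ξ)]
  have h7 : (c * sin x) ^ 2 = c ^ 2 - c ^ 2 * cos x ^ 2 := by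
    linear_combination c ^ 2 * hc2
  linarith

theorem line {r s c x₀ : ℝ} (hr : 1 < r) (hs : s = 1 ∨ s = -1) (hc : |c| < 1)
    (hpos : 0 < s * cos (r * x₀) + c * cos x₀) :
    ∃ i : ℤ, ∀ x ∈ uIcc x₀ (i * π / r), 0 < s * cos (r * x) + c * cos x := by
  have hpi := pi_pos
  have hr0 : 0 < r := by linarith
  set i : ℤ := ⌊r * x₀ / π⌋ with hidef
  have h1 : (i : ℝ) * π ≤ r * x₀ := by
    have := Int.floor_le (r * x₀ / π)
    rwa [le_div_iff₀ hpi] at this
  have h2 : r * x₀ ≤ (i + 1) * π := by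
    have := (Int.lt_floor_add_one (r * x₀ / π)).le
    rwa [div_le_iff₀ hpi] at this
  have hcase : s * cos (i * π) = 1 ∨ s * cos (i * π) = -1 := by
    rcases hs with rfl | rfl <;> rcases cos_int_pi_cases i with h | h <;> rw [h] <;> norm_num
  rcases hcase with h | h
  · refine ⟨i, ?_⟩
    have hle : i * π / r ≤ x₀ := by rw [div_le_iff₀ hr0]; linarith
    rw [uIcc_of_ge hle]
    exact line_left hr hc h h1 h2 hpos
  · refine ⟨i + 1, ?_⟩
    have hle : x₀ ≤ ((i + 1 : ℤ) : ℝ) * π / r := by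
      rw [le_div_iff₀ hr0]; push_cast; linarith
    rw [uIcc_of_le hle]
    intro x hx
    have hi' : s * cos (((-(i + 1) : ℤ) : ℝ) * π) = 1 := by
      push_cast
      rw [show -((i : ℝ) + 1) * π = -(i * π + π) by ring, cos_neg, cos_add_pi]
      linarith
    have key := line_left (x₀ := -x₀) (i := -(i + 1)) hr hc hi' (by push_cast; linarith)
      (by push_cast; linarith) (by
        rw [show r * -x₀ = -(r * x₀) by ring, cos_neg, cos_neg]; exact hpos)
      (-x) ⟨by
        have := hx.2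
        push_cast at this ⊢
        rw [neg_mul, neg_div]
        linarith, by linarith [hx.1]⟩
    rwa [show r * -x = -(r * x) by ring, cos_neg, cos_neg] at key

/-- **Planar theorem.** -/
theorem planar {r s b : ℝ} (hr : 1 < r) (hs : s = 1 ∨ s = -1) (hb : b ≠ 0) (hb1 : |b| < 1)
    {x y : ℝ} (hV : 0 < V r s b (x, y)) :
    ∃ i j : ℤ, JoinedIn {z : ℝ × ℝ | 0 < V r s b z} (x, y) (i * π / r, j * π) := by
  obtain ⟨a, ha⟩ := exists_cell x
  obtain ⟨c, hc⟩ := exists_cell y
  obtain ⟨α, β, hloc⟩ := V_local (r := r) hs hb a c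
  have hU : 0 < U r |b| α β (x - a * π, y - c * π) := by
    rw [← hloc]; simpa using hV
  obtain ⟨x', k, hg⟩ := good_cell hr (abs_pos.2 hb) hb1 ha hc hU
  have hj : JoinedIn {z : ℝ × ℝ | 0 < V r s b z} (x, y) (x' + a * π, ((k + c : ℤ) : ℝ) * π) := by
    have := hg.map (f := fun z : ℝ × ℝ => (z.1 + a * π, z.2 + c * π)) (by fun_prop)
    simp only [sub_add_cancel] at this
    push_cast
    rw [add_mul]
    refine this.mono ?_
    rintro _ ⟨⟨p, q⟩, hz, rfl⟩
    simp only [mem_ofPred_eq] at hz ⊢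
    rw [hloc]; exact hz
  set j : ℤ := k + c with hjdef
  have hs' : s * cos (j * π) = 1 ∨ s * cos (j * π) = -1 := by
    rcases hs with rfl | rfl <;> rcases cos_int_pi_cases j with h | h <;> rw [h] <;> norm_num
  have hc' : |b * cos (r * (j * π))| < 1 := by
    rw [abs_mul]
    have h1 := abs_cos_le_one (r * (j * π))
    nlinarith [abs_nonneg b, abs_nonneg (cos (r * (j * π)))]
  have hval : ∀ t : ℝ, V r s b (t, j * π) =
      (s * cos (j * π)) * cos (r * t) + (b * cos (r * (j * π))) * cos t := by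
    intro t; unfold V; simp only; ring
  have htm := hj.target_mem
  simp only [mem_ofPred_eq] at htm
  rw [hval] at htm
  obtain ⟨i, hi⟩ := line hr hs' hc' htm
  refine ⟨i, j, hj.trans ?_⟩
  apply joined_horiz
  intro t ht
  simp only [mem_ofPred_eq]
  rw [hval]
  exact hi t ht

end Pool.Agent.V8H62.Nod
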