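import Pool.Agent.V8H62.Nod.Core2

/-!
# The planar theorem: every positive component contains a lattice point
-/

open Set Real Filter Topology

namespace Pool.Agent.V8H62.Nod

theorem exists_nat_core (r α : ℝ) (n : ℤ) : ∃ m : ℕ, W r (π / 2) + α ≤ 2 * (n + m) * π := by
  obtain ⟨m, hm⟩ := exists_nat_ge ((W r (π / 2) + α) / (2 * π) - n)
  refine ⟨m, ?_⟩
  have hpi := pi_pos
  have h1 : (W r (π / 2) + α) / (2 * π) ≤ n + m := by linarith
  rw [div_le_iff₀ (by positivity)] at h1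
  linarith

theorem good_arc {r τ α β x y : ℝ} {n : ℤ} (hr : 1 < r) (hτ : 0 < τ) (hτ1 : τ < 1)
    (hx : x ∈ Ioo (-(π / 2)) (π / 2)) (hy : y ∈ Ioo 0 (π / 2))
    (hU : 0 < U r τ α β (x, y)) (hW : W r x + α = 2 * n * π) : Good r τ α β (x, y) := by
  rcases le_or_gt 0 x with h | h
  · obtain ⟨m, hm⟩ := exists_nat_core r α n
    exact core hr hτ hτ1 m n hm x ⟨h, hx.2⟩ hW y hy hU
  · apply good_reflect_x
    obtain ⟨m, hm⟩ := exists_nat_core r (-α) (-n)
    apply core hr hτ hτ1 m (-n) hm (-x) ⟨by linarith, by linarith [hx.1]⟩ _ y hy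
    · rw [U_reflect_x]; exact hU
    · rw [W_neg hr (Ioo_subset_Icc_self hx)]
      push_cast; linarith

theorem good_half {r τ α β x y : ℝ} {n : ℤ} (hr : 1 < r) (hτ : 0 < τ) (hτ1 : τ < 1)
    (hx : x ∈ Ioo (-(π / 2)) (π / 2)) (hy : y ∈ Ioo 0 (π / 2))
    (hU : 0 < U r τ α β (x, y)) (h1 : (2 * n - 1) * π ≤ W r x + α)
    (h2 : W r x + α ≤ 2 * n * π) : Good r τ α β (x, y) := by
  rcases ascend hr hτ hτ1 hx hy hU h1 h2 with h | ⟨x₁, hx₁, hW, hj⟩
  · exact h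
  · exact (good_arc hr hτ hτ1 ⟨by linarith [hx.1, hx₁.1], hx₁.2⟩ hy hj.target_mem hW).of_joined hj

theorem good_interior {r τ α β x y : ℝ} (hr : 1 < r) (hτ : 0 < τ) (hτ1 : τ < 1)
    (hx : x ∈ Ioo (-(π / 2)) (π / 2)) (hy : y ∈ Ioo 0 (π / 2))
    (hU : 0 < U r τ α β (x, y)) : Good r τ α β (x, y) := by
  obtain ⟨n, hn1, hn2⟩ := exists_int_range (W r x + α)
  rcases le_or_gt (W r x + α) (2 * n * π) with h | h
  · exact good_half hr hτ hτ1 hx hy hU hn1 h
  · apply good_reflect_x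
    apply good_half (n := -n) hr hτ hτ1 ⟨by linarith [hx.2], by linarith [hx.1]⟩ hy
    · rw [U_reflect_x]; exact hU
    · rw [W_neg hr (Ioo_subset_Icc_self hx)]; push_cast; linarith
    · rw [W_neg hr (Ioo_subset_Icc_self hx)]; push_cast; linarith

theorem good_nonneg {r τ α β x y : ℝ} (hr : 1 < r) (hτ : 0 < τ) (hτ1 : τ < 1)
    (hx : x ∈ Icc (-(π / 2)) (π / 2)) (hy : y ∈ Icc 0 (π / 2))
    (hU : 0 < U r τ α β (x, y)) : Good r τ α β (x, y) := by
  have hpi := pi_pos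
  by_cases hc : cos x = 0
  · exact good_side hc hy hU
  have hxI : x ∈ Ioo (-(π / 2)) (π / 2) := by
    refine ⟨lt_of_le_of_ne hx.1 ?_, lt_of_le_of_ne hx.2 ?_⟩
    · rintro rfl; simp at hc
    · rintro rfl; simp at hc
  rcases hy.1.eq_or_lt with h0 | h0
  · subst h0
    exact good_of_vert_zero le_rfl (by
      intro y' hy'
      have : y' = 0 := le_antisymm hy'.2 hy'.1
      rw [this]; exact hU)
  rcases hy.2.eq_or_lt with h1 | h1
  · subst h1
    exact good_top hr hτ hτ1 hxI hU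
  · exact good_interior hr hτ hτ1 hxI ⟨h0, h1⟩ hU

/-- Every point of `{U > 0}` in the closed cell can be joined to a horizontal lattice line. -/
theorem good_cell {r τ α β x y : ℝ} (hr : 1 < r) (hτ : 0 < τ) (hτ1 : τ < 1)
    (hx : x ∈ Icc (-(π / 2)) (π / 2)) (hy : y ∈ Icc (-(π / 2)) (π / 2))
    (hU : 0 < U r τ α β (x, y)) : Good r τ α β (x, y) := by
  rcases le_or_gt 0 y with h | h
  · exact good_nonneg hr hτ hτ1 hx ⟨h, hy.2⟩ hU
  · apply good_reflect_y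
    apply good_nonneg hr hτ hτ1 hx ⟨by linarith, by linarith [hy.1]⟩
    rw [U_reflect_y]; exact hU

/-- the global two-mode function, normalised -/
noncomputable def V (r s b : ℝ) (z : ℝ × ℝ) : ℝ :=
  s * cos (r * z.1) * cos z.2 + b * cos z.1 * cos (r * z.2)

theorem exists_cell (x : ℝ) : ∃ a : ℤ, x - a * π ∈ Icc (-(π / 2)) (π / 2) := by
  have hpi := pi_pos
  refine ⟨⌊x / π + 1 / 2⌋, ?_, ?_⟩
  · have h := Int.floor_le (x / π + 1 / 2)
    have h2 : (⌊x / π + 1 / 2⌋ : ℝ) * π ≤ (x / π + 1 / 2) * π :=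
      mul_le_mul_of_nonneg_right h hpi.le
    have h3 : (x / π + 1 / 2) * π = x + π / 2 := by field_simp
    linarith
  · have h := Int.lt_floor_add_one (x / π + 1 / 2)
    have h2 : (x / π + 1 / 2) * π < ((⌊x / π + 1 / 2⌋ : ℝ) + 1) * π :=
      mul_lt_mul_of_pos_right h hpi
    have h3 : (x / π + 1 / 2) * π = x + π / 2 := by field_simp
    linarith

theorem cos_sub_shift (w : ℝ) (a : ℤ) :
    ∃ e : ℝ, (e = 1 ∨ e = -1) ∧ ∀ x, cos (x + a * π) = e * cos x := by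
  rcases Int.even_or_odd a with h | h
  · refine ⟨1, Or.inl rfl, fun x => ?_⟩
    obtain ⟨k, rfl⟩ := h
    rw [show ((k + k : ℤ) : ℝ) * π = k * (2 * π) by push_cast; ring, cos_add_int_mul_two_pi]
    simp
  · refine ⟨-1, Or.inr rfl, fun x => ?_⟩
    obtain ⟨k, rfl⟩ := h
    rw [show x + ((2 * k + 1 : ℤ) : ℝ) * π = (x + π) + k * (2 * π) by push_cast; ring,
      cos_add_int_mul_two_pi, cos_add_pi]
    simp

theorem exists_phase {e : ℝ} (he : e = 1 ∨ e = -1) : ∃ δ : ℝ, ∀ x, cos (x + δ) = e * cos x := by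
  rcases he with rfl | rfl
  · exact ⟨0, fun x => by simp⟩
  · exact ⟨π, fun x => by rw [cos_add_pi]; ring⟩

/-- local form of `V` in each cell -/
theorem V_local {r s b : ℝ} (hs : s = 1 ∨ s = -1) (hb : b ≠ 0) (a c : ℤ) :
    ∃ α β : ℝ, ∀ x y : ℝ, V r s b (x + a * π, y + c * π) = U r |b| α β (x, y) := by
  obtain ⟨ea, hea, hea'⟩ := cos_sub_shift 0 a
  obtain ⟨ec, hec, hec'⟩ := cos_sub_shift 0 c
  have h1 : s * ec = 1 ∨ s * ec = -1 := by
    rcases hs with rfl | rfl <;> rcases hec with rfl | rfl <;> norm_num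
  obtain ⟨eb, heb, heb'⟩ : ∃ e : ℝ, (e = 1 ∨ e = -1) ∧ b = e * |b| := by
    rcases lt_or_gt_of_ne hb with h | h
    · exact ⟨-1, Or.inr rfl, by rw [abs_of_neg h]; ring⟩
    · exact ⟨1, Or.inl rfl, by rw [abs_of_pos h]; ring⟩
  have h2 : eb * ea = 1 ∨ eb * ea = -1 := by
    rcases heb with rfl | rfl <;> rcases hea with rfl | rfl <;> norm_num
  obtain ⟨δ1, hδ1⟩ := exists_phase h1
  obtain ⟨δ2, hδ2⟩ := exists_phase h2
  refine ⟨r * a * π + δ1, r * c * π + δ2, fun x y => ?_⟩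
  unfold V U
  simp only
  rw [hea', hec', show r * x + (r * a * π + δ1) = (r * (x + a * π)) + δ1 by ring,
    show r * y + (r * c * π + δ2) = (r * (y + c * π)) + δ2 by ring, hδ1, hδ2]
  nth_rewrite 2 [heb']
  nth_rewrite 1 [heb']
  ring_nf
  rw [abs_mul, abs_abs]
  rcases heb with rfl | rfl <;> simp <;> ring

end Pool.Agent.V8H62.Nod
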