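import Pool.Agent.V8H62.Nod.Line

/-!
# Two-mode functions on the square
-/

open Set Real Filter Topology

namespace Pool.Agent.V8H62.Nod

/-- the two-mode function `a cos px cos qy + b cos qx cos py` -/
noncomputable def w2 (p q : ℕ) (a b : ℝ) (z : ℝ × ℝ) : ℝ :=
  a * (cos (p * z.1) * cos (q * z.2)) + b * (cos (q * z.1) * cos (p * z.2))

theorem continuous_w2 (p q : ℕ) (a b : ℝ) : Continuous (w2 p q a b) := by
  unfold w2; fun_prop

theorem w2_swap (p q : ℕ) (a b : ℝ) (z : ℝ × ℝ) : w2 p q a b z.swap = w2 p q b a z := by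
  unfold w2; simp only [Prod.fst_swap, Prod.snd_swap]; ring

/-- sign normalisation -/
theorem exists_sign {x : ℝ} (hx : x ≠ 0) : ∃ s : ℝ, (s = 1 ∨ s = -1) ∧ 0 < s * x := by
  rcases lt_or_gt_of_ne hx with h | h
  · exact ⟨-1, Or.inr rfl, by linarith⟩
  · exact ⟨1, Or.inl rfl, by linarith⟩

theorem plane_pos {p q : ℕ} (hq : 0 < q) (hqp : q < p) {a b : ℝ} (hb : b ≠ 0) (hab : |b| < |a|)
    {z : ℝ × ℝ} (hz : w2 p q a b z ≠ 0) :
    ∃ i j : ℤ, JoinedIn {z : ℝ × ℝ | w2 p q a b z ≠ 0} z (i * π / p, j * π / q) := by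
  have hq0 : (0 : ℝ) < q := by exact_mod_cast hq
  have hp0 : (0 : ℝ) < p := by exact_mod_cast (hq.trans hqp)
  have ha0 : 0 < |a| := (abs_nonneg b).trans_lt hab
  have ha : a ≠ 0 := abs_pos.1 ha0
  obtain ⟨s₀, hs₀, hpos⟩ := exists_sign hz
  obtain ⟨s₁, hs₁, hpos1⟩ := exists_sign ha
  have hs : s₀ * s₁ = 1 ∨ s₀ * s₁ = -1 := by
    rcases hs₀ with rfl | rfl <;> rcases hs₁ with rfl | rfl <;> norm_num
  have has : a = s₁ * |a| := by
    rcases hs₁ with rfl | rfl
    · rw [one_mul] at hpos1; rw [abs_of_pos hpos1]; ring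
    · have : a < 0 := by linarith
      rw [abs_of_neg this]; ring
  have hs₀0 : s₀ ≠ 0 := by rcases hs₀ with rfl | rfl <;> norm_num
  have hs₀a : |s₀| = 1 := by rcases hs₀ with rfl | rfl <;> norm_num
  have hr : (1 : ℝ) < (p : ℝ) / q := by
    rw [lt_div_iff₀ hq0, one_mul]; exact_mod_cast hqp
  have hval : ∀ x y : ℝ, V ((p : ℝ) / q) (s₀ * s₁) (s₀ * b / |a|) (q * x, q * y) =
      s₀ * w2 p q a b (x, y) / |a| := by
    intro x y
    unfold V w2
    simp only
    rw [show (p : ℝ) / q * (q * x) = p * x by field_simp,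
      show (p : ℝ) / q * (q * y) = p * y by field_simp]
    rw [eq_div_iff ha0.ne']
    have h1 : s₀ * b / |a| * cos (q * x) * cos (p * y) * |a| =
        s₀ * b * cos (q * x) * cos (p * y) := by field_simp
    rw [add_mul, h1]
    linear_combination (-(s₀ * cos (p * x) * cos (q * y))) * has
  have hb' : s₀ * b / |a| ≠ 0 := div_ne_zero (mul_ne_zero hs₀0 hb) ha0.ne'
  have hb1 : abs (s₀ * b / |a|) < 1 := by
    rw [abs_div, abs_mul, hs₀a, abs_abs, one_mul, div_lt_one ha0]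
    exact hab
  obtain ⟨x, y⟩ := z
  have hV : 0 < V ((p : ℝ) / q) (s₀ * s₁) (s₀ * b / |a|) (q * x, q * y) := by
    rw [hval]; positivity
  obtain ⟨i, j, h⟩ := planar hr hs hb' hb1 hV
  refine ⟨i, j, ?_⟩
  have := h.map (f := fun z : ℝ × ℝ => (z.1 / q, z.2 / q)) (by fun_prop)
  simp only at this
  rw [show (q : ℝ) * x / q = x by field_simp, show (q : ℝ) * y / q = y by field_simp,
    show (i : ℝ) * π / (p / q) / q = i * π / p by field_simp] at this
  refine this.mono ?_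
  rintro _ ⟨⟨x', y'⟩, hz', rfl⟩
  simp only [mem_ofPred_eq] at hz' ⊢
  have h2 := hval (x' / q) (y' / q)
  rw [show (q : ℝ) * (x' / q) = x' by field_simp, show (q : ℝ) * (y' / q) = y' by field_simp] at h2
  rw [h2] at hz'
  intro h0
  rw [h0] at hz'
  simp at hz'

theorem plane_zero {p : ℕ} (hp : 0 < p) {a b : ℝ} (hab : |b| < |a|)
    {z : ℝ × ℝ} (hz : w2 p 0 a b z ≠ 0) :
    ∃ i : ℤ, JoinedIn {z : ℝ × ℝ | w2 p 0 a b z ≠ 0} z (i * π / p, 0) := by
  have hp0 : (0 : ℝ) < p := by exact_mod_cast hp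
  have hpi := pi_pos
  obtain ⟨x, y⟩ := z
  have hval : ∀ x y : ℝ, w2 p 0 a b (x, y) = a * cos (p * x) + b * cos (p * y) := by
    intro x y; unfold w2; simp
  obtain ⟨s₀, hs₀, hpos⟩ := exists_sign hz
  have ha0 : 0 < |a| := (abs_nonneg b).trans_lt hab
  have ha : a ≠ 0 := abs_pos.1 ha0
  have hs₀0 : s₀ ≠ 0 := by rcases hs₀ with rfl | rfl <;> norm_num
  have hs₀a : |s₀| = 1 := by rcases hs₀ with rfl | rfl <;> norm_num
  have hs0a : s₀ * a ≠ 0 := mul_ne_zero hs₀0 ha
  -- choose the lattice point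
  obtain ⟨i, hi1, hi2⟩ : ∃ i : ℤ, |p * x - i * π| ≤ π ∧ s₀ * a * cos (i * π) = |a| := by
    rcases lt_or_gt_of_ne hs0a with h | h
    · obtain ⟨k, hk1, hk2⟩ := exists_int_range (p * x - π)
      refine ⟨2 * k + 1, ?_, ?_⟩
      · push_cast
        rw [abs_le]
        constructor <;> linarith
      · push_cast
        rw [show (2 * (k : ℝ) + 1) * π = 2 * k * π + π by ring, cos_add_pi, cos_two_int]
        have : |s₀ * a| = |a| := by rw [abs_mul, hs₀a, one_mul]
        rw [← this, abs_of_neg h]; ring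
    · obtain ⟨k, hk1, hk2⟩ := exists_int_range (p * x)
      refine ⟨2 * k, ?_, ?_⟩
      · push_cast
        rw [abs_le]
        constructor <;> linarith
      · push_cast
        rw [cos_two_int]
        have : |s₀ * a| = |a| := by rw [abs_mul, hs₀a, one_mul]
        rw [← this, abs_of_pos h]; ring
  have hcos : ∀ t : ℝ, s₀ * a * cos (p * t) = |a| * cos (|p * t - i * π|) := by
    intro t
    rw [cos_abs, show (p : ℝ) * t = (p * t - i * π) + i * π by ring, cos_add, sin_int_mul_pi]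
    rw [show p * t - i * π + i * π - i * π = p * t - i * π by ring]
    linear_combination cos (p * t - i * π) * hi2
  have hkey : ∀ t ∈ uIcc x (i * π / p), 0 < s₀ * w2 p 0 a b (t, y) := by
    intro t ht
    rw [hval] at hpos ⊢
    have h1 : |p * t - i * π| ≤ |p * x - i * π| := by
      have hpi' : (i : ℝ) * π = p * (i * π / p) := by field_simp
      rw [hpi', ← mul_sub, ← mul_sub, abs_mul, abs_mul]
      apply mul_le_mul_of_nonneg_left _ (abs_nonneg _)
      have := abs_sub_right_of_mem_uIcc ht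
      rw [abs_sub_comm] at this
      rwa [abs_sub_comm x]
    have h2 : cos (|p * x - i * π|) ≤ cos (|p * t - i * π|) :=
      cos_le_cos_of_nonneg_of_le_pi (abs_nonneg _) hi1 h1
    have h3 := mul_le_mul_of_nonneg_left h2 ha0.le
    rw [← hcos, ← hcos] at h3
    linarith
  have hj1 : JoinedIn {z : ℝ × ℝ | w2 p 0 a b z ≠ 0} (x, y) (i * π / p, y) := by
    apply joined_horiz
    intro t ht
    have := hkey t ht
    simp only [mem_ofPred_eq]
    intro h0
    rw [h0] at this; simp at this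
  refine ⟨i, hj1.trans ?_⟩
  apply joined_vert
  intro y' _
  simp only [mem_ofPred_eq]
  intro h0
  have h1 : s₀ * w2 p 0 a b (i * π / p, y') = |a| + s₀ * b * cos (p * y') := by
    rw [hval, show (p : ℝ) * (i * π / p) = i * π by field_simp]
    linear_combination hi2
  rw [h0, mul_zero] at h1
  have h2 : |s₀ * b * cos (p * y')| ≤ |b| := by
    rw [abs_mul, abs_mul, hs₀a, one_mul]
    have := abs_cos_le_one (p * y')
    nlinarith [abs_nonneg b]
  have h3 := neg_abs_le (s₀ * b * cos (p * y'))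
  linarith

/-- combined planar statement -/
theorem plane_all {p q : ℕ} (hqp : q < p) {a b : ℝ} (hb : b ≠ 0) (hab : |b| < |a|)
    {z : ℝ × ℝ} (hz : w2 p q a b z ≠ 0) :
    ∃ i j : ℤ, JoinedIn {z : ℝ × ℝ | w2 p q a b z ≠ 0} z (i * π / p, j * π / q) := by
  rcases Nat.eq_zero_or_pos q with h | h
  · subst h
    obtain ⟨i, hi⟩ := plane_zero hqp hab hz
    exact ⟨i, 0, by simpa using hi⟩
  · exact plane_pos h hqp hb hab hz

/-- the fold -/
noncomputable def fold (z : ℝ × ℝ) : ℝ × ℝ := (arccos (cos z.1), arccos (cos z.2))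

theorem continuous_fold : Continuous fold := by
  unfold fold
  exact (continuous_arccos.comp (continuous_cos.comp continuous_fst)).prodMk
    (continuous_arccos.comp (continuous_cos.comp continuous_snd))

theorem cos_nat_mul_fold (m : ℕ) (x : ℝ) : cos (m * arccos (cos x)) = cos (m * x) := by
  have h1 := Polynomial.Chebyshev.T_real_cos (arccos (cos x)) (m : ℤ)
  have h2 := Polynomial.Chebyshev.T_real_cos x (m : ℤ)
  rw [cos_arccos (neg_one_le_cos x) (cos_le_one x)] at h1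
  rw [h1] at h2
  simpa using h2

theorem w2_fold (p q : ℕ) (a b : ℝ) (z : ℝ × ℝ) : w2 p q a b (fold z) = w2 p q a b z := by
  unfold w2 fold
  simp only [cos_nat_mul_fold]

/-- closed square -/
def Kc : Set (ℝ × ℝ) := Icc 0 π ×ˢ Icc 0 π

/-- open square -/
def Om : Set (ℝ × ℝ) := Ioo 0 π ×ˢ Ioo 0 π

theorem fold_mem (z : ℝ × ℝ) : fold z ∈ Kc :=
  ⟨⟨arccos_nonneg _, arccos_le_pi _⟩, ⟨arccos_nonneg _, arccos_le_pi _⟩⟩

theorem fold_of_mem {z : ℝ × ℝ} (hz : z ∈ Kc) : fold z = z := by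
  unfold fold
  rw [arccos_cos hz.1.1 hz.1.2, arccos_cos hz.2.1 hz.2.2]

theorem fold_lattice (p : ℕ) (i : ℤ) :
    ∃ k : ℕ, k ≤ p ∧ arccos (cos (i * π / p)) = k * π / p := by
  rcases Nat.eq_zero_or_pos p with h | h
  · subst h
    exact ⟨0, le_rfl, by simp⟩
  have hp0 : (0 : ℝ) < p := by exact_mod_cast h
  have h1 := cos_nat_mul_fold p (i * π / p)
  rw [show (p : ℝ) * (i * π / p) = i * π by field_simp] at h1
  have h2 : sin (p * arccos (cos (i * π / p))) = 0 := by
    have := sin_sq_add_cos_sq (p * arccos (cos (i * π / p)))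
    rw [h1, cos_int_pi_sq] at this
    have h3 : sin (p * arccos (cos (i * π / p))) ^ 2 = 0 := by linarith
    exact pow_eq_zero_iff (two_ne_zero) |>.1 h3
  obtain ⟨n, hn⟩ := sin_eq_zero_iff.1 h2
  have hpi := pi_pos
  have hn0 : 0 ≤ n := by
    have : 0 ≤ (n : ℝ) * π := by
      rw [hn]; exact mul_nonneg hp0.le (arccos_nonneg _)
    have h3 : (0 : ℝ) ≤ n := nonneg_of_mul_nonneg_left this hpi
    exact_mod_cast h3
  obtain ⟨k, rfl⟩ := Int.eq_ofNat_of_zero_le hn0
  refine ⟨k, ?_, ?_⟩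
  · have : ((k : ℤ) : ℝ) * π ≤ p * π := by
      rw [hn]; exact mul_le_mul_of_nonneg_left (arccos_le_pi _) hp0.le
    have h3 := le_of_mul_le_mul_right this hpi
    have h4 : (k : ℝ) ≤ p := by exact_mod_cast h3
    exact_mod_cast h4
  · rw [eq_div_iff hp0.ne', mul_comm]
    rw [← hn]; norm_cast

/-- each point of a nodal domain is joined in the closed square to a lattice point -/
theorem closed_all {p q : ℕ} (hqp : q < p) {a b : ℝ} (hb : b ≠ 0) (hab : |b| < |a|)
    {z : ℝ × ℝ} (hzK : z ∈ Kc) (hz : w2 p q a b z ≠ 0) :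
    ∃ t : Fin (p + 1) × Fin (q + 1), JoinedIn {z : ℝ × ℝ | z ∈ Kc ∧ w2 p q a b z ≠ 0} z
      ((t.1 : ℕ) * π / p, (t.2 : ℕ) * π / q) := by
  obtain ⟨i, j, h⟩ := plane_all hqp hb hab hz
  obtain ⟨k, hk, hk'⟩ := fold_lattice p i
  obtain ⟨l, hl, hl'⟩ := fold_lattice q j
  refine ⟨(⟨k, by omega⟩, ⟨l, by omega⟩), ?_⟩
  have := h.map continuous_fold
  rw [fold_of_mem hzK] at this
  have e : fold (i * π / p, j * π / q) = (k * π / p, l * π / q) := by
    unfold fold; simp only; rw [hk', hl']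
  rw [e] at this
  refine this.mono ?_
  rintro _ ⟨z', hz', rfl⟩
  exact ⟨fold_mem z', by rw [w2_fold]; exact hz'⟩

end Pool.Agent.V8H62.Nod
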